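import Mathlib
import Pool.Agent.Lib.MP_1f45fc_nt.SalemC.Exists

/-!
# The core data with the explicit sequence `useq`, and its generating series
-/

set_option autoImplicit false

open Polynomial

namespace Pool.Agent.MP1f45fc.S

open Pool.Agent.MP1f45fc.SalemC

theorem core_useq (P : ℤ[X]) (hP : P.Monic) (θ : ℝ) (hθ : 1 < θ) (D : ℝ[X])
    (hPD : P.map (Int.castRingHom ℝ) = (X - C θ) * D)
    (hroots : ∀ z : ℂ, aeval z D = 0 → ‖z‖ < 1) (hP0 : P.coeff 0 ≠ 0)
    (n : ℕ) (hn : 1 ≤ n) (ε : ℤ) (hε : ε = 1 ∨ ε = -1) (β : ℝ) (hβ : 1 < β)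
    (hPβ : aeval β P ≠ 0) (heq : β ^ n * aeval β P + ε * aeval β P.reverse = 0) :
    Core n β (useq (C ε * P.reverse) P) := by
  have hε0 : ε ≠ 0 := by rcases hε with h | h <;> simp [h]
  set Q : ℤ[X] := C ε * P.reverse with hQdef
  have hQd : Q.natDegree = P.natDegree := natDegree_eps_reverse P hP0 ε hε
  set Pr := P.map (Int.castRingHom ℝ) with hPr
  set Qr := Q.map (Int.castRingHom ℝ) with hQr
  have hPrM : Pr.Monic := hP.map _
  have hPrd : Pr.natDegree = P.natDegree := hP.natDegree_map _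
  have hQrd : Qr.natDegree ≤ P.natDegree := by
    rw [← hQd]; exact Polynomial.natDegree_map_le
  have hD0 : D ≠ 0 := by
    intro h
    rw [h, mul_zero] at hPD
    exact hPrM.ne_zero hPD
  have hXθ : (X - C θ : ℝ[X]) ≠ 0 := Polynomial.X_sub_C_ne_zero θ
  have hDd : D.natDegree + 1 = P.natDegree := by
    rw [← hPrd, hPD, Polynomial.natDegree_mul hXθ hD0, Polynomial.natDegree_X_sub_C, add_comm]
  have hPrβ : Pr.eval β ≠ 0 := by rw [eval_map_real]; exact hPβ
  have hPrθ : Pr.eval θ = 0 := by rw [hPD]; simp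
  have hθβ : θ ≠ β := by
    intro h
    rw [h] at hPrθ
    exact hPrβ hPrθ
  have hQβ : Qr.eval β = -(β ^ n) * Pr.eval β := by
    rw [eval_map_real, eval_map_real, hQdef, map_mul, aeval_C]
    simp only [algebraMap_int_eq, eq_intCast]
    linarith
  change Core n β (useq Q P)
  refine ⟨hβ, ?_, ?_, ?_⟩
  · rw [useq_zero P hP hP0 ε hε]
    exact mul_ne_zero hε0 hP0
  · intro p
    set A := T (useq Q P) p with hA
    set c : ℝ := -(p.eval θ * (1 - β⁻¹ * θ)) with hc
    apply key_ineq β hβ n hn (sq A) (sq p) (A.eval β⁻¹) (p.eval β⁻¹) c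
    have hβ0 : 0 < β := by linarith
    have hz0 : 0 < β⁻¹ := inv_pos.2 hβ0
    have hz1 : β⁻¹ < 1 := inv_lt_one_of_one_lt₀ hβ
    -- the polynomial identity
    obtain ⟨R0, hR0, hR0'⟩ := T_eq_div Q P hP hQd.le p
    rw [← hA, ← hPr, ← hQr] at hR0'
    rw [← hPr] at hR0
    set Y : ℝ[X] := p * (1 - C β⁻¹ * X) + C c with hY
    set aN : ℝ[X] := A * (1 - C β⁻¹ * X) + C (-(β ^ n) * c) with haN
    set N : ℝ[X] := Qr * Y - aN * Pr with hN
    have hN' : N = R0 * (1 - C β⁻¹ * X) + (C c * Qr + C (β ^ n * c) * Pr) := by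
      have : R0 = p * Qr - A * Pr := by rw [hR0']; ring
      rw [hN, hY, haN, this]
      simp only [map_mul, map_neg]
      ring
    have hNd : N.natDegree ≤ P.natDegree := by
      rw [hN']
      refine (Polynomial.natDegree_add_le _ _).trans (max_le ?_ ?_)
      · by_cases h0 : R0 = 0
        · simp [h0]
        · have h1 := Polynomial.natDegree_lt_natDegree h0 hR0
          rw [hPrd] at h1
          refine Polynomial.natDegree_mul_le.trans ?_
          have h2 : (1 - C β⁻¹ * X : ℝ[X]).natDegree ≤ 1 := by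
            refine (Polynomial.natDegree_sub_le _ _).trans (max_le (by simp) ?_)
            exact (Polynomial.natDegree_C_mul_le _ _).trans Polynomial.natDegree_X_le
          omega
      · refine (Polynomial.natDegree_add_le _ _).trans (max_le ?_ ?_)
        · exact (Polynomial.natDegree_C_mul_le _ _).trans hQrd
        · exact (Polynomial.natDegree_C_mul_le _ _).trans hPrd.le
    have hNθ : N.eval θ = 0 := by
      rw [hN]
      simp only [eval_sub, eval_mul, hY, eval_add, eval_one, eval_C, eval_X, hPrθ, mul_zero, sub_zero]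
      rw [hc]; ring
    have hNβ : N.eval β = 0 := by
      rw [hN]
      simp only [eval_sub, eval_mul, hY, haN, eval_add, eval_one, eval_C, eval_X]
      rw [inv_mul_cancel₀ hβ0.ne', hQβ]
      ring
    have hdvd1 : (X - C θ) ∣ N := Polynomial.dvd_iff_isRoot.2 hNθ
    have hdvd2 : (X - C β) ∣ N := Polynomial.dvd_iff_isRoot.2 hNβ
    have hcop : IsCoprime (X - C θ : ℝ[X]) (X - C β) :=
      Polynomial.isCoprime_X_sub_C_of_isUnit_sub (sub_ne_zero.2 hθβ).isUnit
    obtain ⟨R', hR'⟩ := hcop.mul_dvd hdvd1 hdvd2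
    set R : ℝ[X] := C (-β) * R' with hRdef
    have hNR : N = (X - C θ) * (1 - C β⁻¹ * X) * R := by
      have h1 : (X - C β : ℝ[X]) = C (-β) * (1 - C β⁻¹ * X) := by
        have : C (-β) * (C β⁻¹ * X) = -(X : ℝ[X]) := by
          rw [← mul_assoc, ← C_mul, neg_mul, mul_inv_cancel₀ hβ0.ne']
          simp
        rw [mul_sub, this, mul_one]
        simp
        ring
      rw [hR', h1, hRdef]
      ring
    have hRd : R.degree < D.degree := by
      by_cases hR0 : R' = 0
      · rw [hRdef, hR0, mul_zero, Polynomial.degree_zero]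
        exact bot_lt_iff_ne_bot.2 (by rwa [Ne, Polynomial.degree_eq_bot])
      · have hRne : R ≠ 0 := mul_ne_zero (C_ne_zero.2 (by linarith)) hR0
        have h1 : N.natDegree = 2 + R'.natDegree := by
          rw [hR', Polynomial.natDegree_mul (mul_ne_zero hXθ (Polynomial.X_sub_C_ne_zero β)) hR0,
            Polynomial.natDegree_mul hXθ (Polynomial.X_sub_C_ne_zero β),
            Polynomial.natDegree_X_sub_C, Polynomial.natDegree_X_sub_C]
        have h2 : R.natDegree ≤ R'.natDegree := Polynomial.natDegree_C_mul_le _ _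
        rw [Polynomial.degree_eq_natDegree hRne, Polynomial.degree_eq_natDegree hD0]
        exact_mod_cast (by omega : R.natDegree < D.natDegree)
    have := parseval_ineq D R p A β⁻¹ c (-(β ^ n) * c) (by rw [abs_of_pos hz0]; exact hz1)
      hroots hRd ?_
    · simpa [SalemC.sq] using this
    · intro ζ hζ
      -- nonvanishing
      have h1 : (1 - ((β⁻¹ : ℝ) : ℂ) * ζ) ≠ 0 := by
        intro h
        have h2 : ((β⁻¹ : ℝ) : ℂ) * ζ = 1 := (sub_eq_zero.1 h).symm
        have h3 : ‖((β⁻¹ : ℝ) : ℂ) * ζ‖ = 1 := by rw [h2, norm_one]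
        rw [norm_mul, hζ, mul_one, Complex.norm_real, Real.norm_eq_abs, abs_of_pos hz0] at h3
        linarith
      have hDζ : aeval ζ D ≠ 0 := by
        intro h
        have := hroots ζ h
        linarith
      have hζθ : ζ - (θ : ℂ) ≠ 0 := by
        intro h
        have h2 : ζ = (θ : ℂ) := sub_eq_zero.1 h
        rw [h2, Complex.norm_real, Real.norm_eq_abs, abs_of_pos (by linarith)] at hζ
        linarith
      have hPζ : aeval ζ Pr = (ζ - (θ : ℂ)) * aeval ζ D := by
        rw [hPD]; simp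
      have hPζ0 : aeval ζ Pr ≠ 0 := by rw [hPζ]; exact mul_ne_zero hζθ hDζ
      have hQP : ‖aeval ζ Qr‖ = ‖aeval ζ Pr‖ := by
        rw [hQr, hPr, aeval_map_real, aeval_map_real, hQdef, map_mul, norm_mul, aeval_C,
          norm_aeval_reverse P ζ hζ]
        rcases hε with h | h <;> simp [h]
      have hid : aeval ζ Qr * aeval ζ Y = aeval ζ aN * aeval ζ Pr +
          (ζ - (θ : ℂ)) * (1 - ((β⁻¹ : ℝ) : ℂ) * ζ) * aeval ζ R := by
        have h2 : aeval ζ N = (ζ - (θ : ℂ)) * (1 - ((β⁻¹ : ℝ) : ℂ) * ζ) * aeval ζ R := by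
          rw [hNR]; simp
        have h3 : aeval ζ N = aeval ζ Qr * aeval ζ Y - aeval ζ aN * aeval ζ Pr := by
          rw [hN]; simp
        rw [← h2, h3]; ring
      have hYv : aeval ζ p + (c : ℂ) / (1 - ((β⁻¹ : ℝ) : ℂ) * ζ) =
          aeval ζ Y / (1 - ((β⁻¹ : ℝ) : ℂ) * ζ) := by
        rw [hY]
        simp only [map_add, map_mul, map_sub, map_one, aeval_C, aeval_X, Complex.coe_algebraMap]
        rw [add_div, mul_div_cancel_right₀ _ h1]
      have haNv : aeval ζ A + ((-(β ^ n) * c : ℝ) : ℂ) / (1 - ((β⁻¹ : ℝ) : ℂ) * ζ) =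
          aeval ζ aN / (1 - ((β⁻¹ : ℝ) : ℂ) * ζ) := by
        rw [haN]
        simp only [map_add, map_mul, map_sub, map_one, aeval_C, aeval_X, Complex.coe_algebraMap]
        rw [add_div, mul_div_cancel_right₀ _ h1]
        rw [Complex.ofReal_mul]
      rw [hYv, haNv]
      have h4 : (aeval ζ Qr / aeval ζ Pr) * (aeval ζ Y / (1 - ((β⁻¹ : ℝ) : ℂ) * ζ)) =
          aeval ζ aN / (1 - ((β⁻¹ : ℝ) : ℂ) * ζ) + aeval ζ R / aeval ζ D := by
        rw [div_mul_div_comm, hid, hPζ]
        generalize (1 - ((β⁻¹ : ℝ) : ℂ) * ζ) = w at h1 ⊢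
        generalize (ζ - (θ : ℂ)) = v at hζθ ⊢
        field_simp
      have h5 : ‖aeval ζ Qr / aeval ζ Pr‖ = 1 := by
        rw [norm_div, hQP, div_self (norm_ne_zero_iff.2 hPζ0)]
      rw [← h4, norm_mul, h5, one_mul]
  · intro p0 h
    have h1 := rigid_aux Q P hP hQd.le p0 h
    rw [← hPr, ← hQr] at h1
    have h2 := congrArg (Polynomial.eval β) h1
    rw [eval_mul, eval_mul, hQβ] at h2
    have h3 : (β ^ n * p0.eval β + (T (useq Q P) p0).eval β) * Pr.eval β = 0 := by
      linarith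
    exact (mul_eq_zero.1 h3).resolve_right hPrβ


/-- `P* · ∑ u_k z^k = ε P`. -/
theorem useq_series (P : ℤ[X]) (hP : P.Monic) (hP0 : P.coeff 0 ≠ 0) (ε : ℤ)
    (hε : ε = 1 ∨ ε = -1) :
    (P.reverse : PowerSeries ℤ) * PowerSeries.mk (useq (C ε * P.reverse) P) =
      ((C ε * P : ℤ[X]) : PowerSeries ℤ) := by
  have hQd : (C ε * P.reverse).natDegree = P.natDegree := natDegree_eps_reverse P hP0 ε hε
  have hrc : ∀ j, P.reverse.coeff j = if j ≤ P.natDegree then P.coeff (P.natDegree - j) else 0 := by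
    intro j
    rw [coeff_reverse]
    split_ifs with h
    · rw [revAt_le h]
    · rw [revAt_eq_self_of_lt (by omega)]
      exact coeff_eq_zero_of_natDegree_lt (by omega)
  ext l
  rw [PowerSeries.coeff_mul, Finset.Nat.sum_antidiagonal_eq_sum_range_succ
    (f := fun a b => PowerSeries.coeff a (P.reverse : PowerSeries ℤ) *
      PowerSeries.coeff b (PowerSeries.mk (useq (C ε * P.reverse) P)))]
  simp only [Polynomial.coeff_coe, PowerSeries.coeff_mk]
  set Q : ℤ[X] := C ε * P.reverse with hQ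
  set Pr := P.map (Int.castRingHom ℝ) with hPr
  have hPrM : Pr.Monic := hP.map _
  have hPrd : Pr.natDegree = P.natDegree := hP.natDegree_map _
  have h1 := T_pow_eq Q P hP hQd.le l
  have h2 := modByMonic_add_div (X ^ l * Q.map (Int.castRingHom ℝ)) Pr
  rw [← h1] at h2
  have h3 := congrArg (fun f => f.coeff P.natDegree) h2
  simp only [coeff_add] at h3
  have h4 : ((X ^ l * Q.map (Int.castRingHom ℝ)) %ₘ Pr).coeff P.natDegree = 0 := by
    apply coeff_eq_zero_of_degree_lt
    have := degree_modByMonic_lt (X ^ l * Q.map (Int.castRingHom ℝ)) hPrM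
    rwa [degree_eq_natDegree hPrM.ne_zero, hPrd] at this
  rw [h4, zero_add, Finset.mul_sum, finsetSum_coeff] at h3
  have h5 : ∀ j ∈ Finset.range (l + 1),
      (Pr * monomial j ((useq Q P (l - j) : ℤ) : ℝ)).coeff P.natDegree =
        ((P.reverse.coeff j * useq Q P (l - j) : ℤ) : ℝ) := by
    intro j _
    rw [← C_mul_X_pow_eq_monomial, ← mul_assoc, coeff_mul_X_pow', hrc]
    split_ifs with h
    · rw [coeff_mul_C, hPr, coeff_map]
      push_cast
      rfl
    · simp
  rw [Finset.sum_congr rfl h5] at h3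
  have h6 : (X ^ l * Q.map (Int.castRingHom ℝ)).coeff P.natDegree =
      (((C ε * P : ℤ[X]).coeff l : ℤ) : ℝ) := by
    rw [coeff_X_pow_mul', coeff_C_mul]
    split_ifs with h
    · rw [coeff_map, hQ, coeff_C_mul, hrc, if_pos (by omega)]
      rw [show P.natDegree - (P.natDegree - l) = l by omega]
      simp
    · rw [coeff_eq_zero_of_natDegree_lt (by omega)]
      simp
  rw [h6] at h3
  exact_mod_cast h3

end Pool.Agent.MP1f45fc.S
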