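import Mathlib

/-!
# The Toeplitz form of a sequence on polynomials
-/

set_option autoImplicit false

open Polynomial

namespace Pool.Agent.MP1f45fc.S

noncomputable def tb (r : ℕ → ℤ) (f g : ℝ[X]) : ℝ :=
  f.sum fun i a => g.sum fun j b => a * b * (r (Nat.dist i j) : ℝ)

theorem tb_range (r : ℕ → ℤ) (N : ℕ) (f g : ℝ[X]) (hf : f.natDegree < N) (hg : g.natDegree < N) :
    tb r f g = ∑ i ∈ Finset.range N, ∑ j ∈ Finset.range N,
      f.coeff i * g.coeff j * (r (Nat.dist i j) : ℝ) := by
  unfold tb
  rw [sum_over_range' f (fun n => by simp [Polynomial.sum]) N hf]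
  refine Finset.sum_congr rfl fun i _ => ?_
  rw [sum_over_range' g (fun n => by simp) N hg]

theorem tb_add_left (r : ℕ → ℤ) (f g h : ℝ[X]) : tb r (f + g) h = tb r f h + tb r g h := by
  set N := f.natDegree + g.natDegree + h.natDegree + 1 with hN
  have h1 : (f + g).natDegree < N := lt_of_le_of_lt (natDegree_add_le _ _) (by omega)
  rw [tb_range r N _ _ h1 (by omega), tb_range r N _ _ (by omega) (by omega),
    tb_range r N _ _ (by omega) (by omega), ← Finset.sum_add_distrib]
  refine Finset.sum_congr rfl fun i _ => ?_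
  rw [← Finset.sum_add_distrib]
  refine Finset.sum_congr rfl fun j _ => ?_
  rw [coeff_add]
  ring

theorem tb_comm (r : ℕ → ℤ) (f g : ℝ[X]) : tb r f g = tb r g f := by
  set N := f.natDegree + g.natDegree + 1 with hN
  rw [tb_range r N _ _ (by omega) (by omega), tb_range r N _ _ (by omega) (by omega),
    Finset.sum_comm]
  refine Finset.sum_congr rfl fun i _ => Finset.sum_congr rfl fun j _ => ?_
  rw [Nat.dist_comm]
  ring

theorem tb_add_right (r : ℕ → ℤ) (f g h : ℝ[X]) : tb r f (g + h) = tb r f g + tb r f h := by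
  rw [tb_comm, tb_add_left, tb_comm r g, tb_comm r h]

theorem tb_C_mul_left (r : ℕ → ℤ) (c : ℝ) (f g : ℝ[X]) : tb r (C c * f) g = c * tb r f g := by
  set N := f.natDegree + g.natDegree + 1 with hN
  have h1 : (C c * f).natDegree < N := lt_of_le_of_lt (natDegree_C_mul_le _ _) (by omega)
  rw [tb_range r N _ _ h1 (by omega), tb_range r N _ _ (by omega) (by omega), Finset.mul_sum]
  refine Finset.sum_congr rfl fun i _ => ?_
  rw [Finset.mul_sum]
  refine Finset.sum_congr rfl fun j _ => ?_
  rw [coeff_C_mul]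
  ring

theorem tb_C_mul_right (r : ℕ → ℤ) (c : ℝ) (f g : ℝ[X]) : tb r f (C c * g) = c * tb r f g := by
  rw [tb_comm, tb_C_mul_left, tb_comm]

theorem tb_X_mul (r : ℕ → ℤ) (f g : ℝ[X]) : tb r (X * f) (X * g) = tb r f g := by
  set N := f.natDegree + g.natDegree + 1 with hN
  have h1 : (X * f).natDegree < N + 1 := by
    refine lt_of_le_of_lt natDegree_mul_le ?_
    rw [natDegree_X]; omega
  have h2 : (X * g).natDegree < N + 1 := by
    refine lt_of_le_of_lt natDegree_mul_le ?_
    rw [natDegree_X]; omega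
  rw [tb_range r (N + 1) _ _ h1 h2, tb_range r N _ _ (by omega) (by omega),
    Finset.sum_range_succ']
  have h3 : ∑ j ∈ Finset.range (N + 1),
      (X * f).coeff 0 * (X * g).coeff j * (r (Nat.dist 0 j) : ℝ) = 0 := by
    refine Finset.sum_eq_zero fun j _ => ?_
    rw [coeff_X_mul_zero]
    ring
  rw [h3, add_zero]
  refine Finset.sum_congr rfl fun i _ => ?_
  rw [Finset.sum_range_succ', coeff_X_mul, coeff_X_mul_zero]
  have h4 : ∀ j, Nat.dist (i + 1) (j + 1) = Nat.dist i j := fun j => Nat.dist_succ_succ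
  simp only [coeff_X_mul, h4, mul_zero, zero_mul, add_zero]

theorem tb_reflect (r : ℕ → ℤ) (N : ℕ) (f g : ℝ[X]) (hf : f.natDegree ≤ N) (hg : g.natDegree ≤ N) :
    tb r (reflect N f) (reflect N g) = tb r f g := by
  have h1 : (reflect N f).natDegree < N + 1 := by
    have := natDegree_reflect_le (N := N) (p := f)
    omega
  have h2 : (reflect N g).natDegree < N + 1 := by
    have := natDegree_reflect_le (N := N) (p := g)
    omega
  rw [tb_range r (N + 1) _ _ h1 h2, tb_range r (N + 1) f g (by omega) (by omega),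
    ← Finset.sum_range_reflect]
  refine Finset.sum_congr rfl fun i hi => ?_
  rw [← Finset.sum_range_reflect]
  refine Finset.sum_congr rfl fun j hj => ?_
  rw [Finset.mem_range] at hi hj
  rw [coeff_reflect, coeff_reflect, revAt_le (by omega), revAt_le (by omega)]
  have e1 : N - (N + 1 - 1 - i) = i := by omega
  have e2 : N - (N + 1 - 1 - j) = j := by omega
  have e3 : Nat.dist (N + 1 - 1 - i) (N + 1 - 1 - j) = Nat.dist i j := by
    simp only [Nat.dist]
    omega
  rw [e1, e2, e3]

theorem tb_monomial_aux (r : ℕ → ℤ) (a b : ℕ) (x y : ℝ) :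
    tb r (monomial a x) (monomial b y) = x * y * (r (Nat.dist a b) : ℝ) := by
  unfold tb
  rw [sum_monomial_index _ _ (by simp [Polynomial.sum]), sum_monomial_index _ _ (by simp)]

theorem tb_expand (r : ℕ → ℤ) (n : ℕ) (hn : 1 ≤ n) (f g : ℝ[X]) :
    tb r (expand ℝ n f) (expand ℝ n g) = tb (fun k => r (n * k)) f g := by
  induction f using Polynomial.induction_on' with
  | add p q hp hq => rw [map_add, tb_add_left, tb_add_left, hp, hq]
  | monomial a x =>
    induction g using Polynomial.induction_on' with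
    | add p q hp hq => rw [map_add, tb_add_right, tb_add_right, hp, hq]
    | monomial b y =>
      rw [expand_monomial, expand_monomial, tb_monomial_aux, tb_monomial_aux,
        Nat.dist_mul_right, Nat.mul_comm]

end Pool.Agent.MP1f45fc.S
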