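import Mathlib
import Pool.Agent.Lib.MP_1f45fc_nt.S.Tb

/-!
# The S-lemma for the Toeplitz form

If the Toeplitz form `tb r` is nonnegative on the hyperplane `f(β) = 0` then it dominates a
multiple of the form `f(β) f(1/β)`.
-/

set_option autoImplicit false

open Polynomial

namespace Pool.Agent.MP1f45fc.S

/-- expansion of the form at a combination -/
theorem tb_comb (r : ℕ → ℤ) (c a : ℝ) (f h : ℝ[X]) :
    tb r (C c * f + C (-a) * h) (C c * f + C (-a) * h)
      = c ^ 2 * tb r f f - 2 * (a * c) * tb r f h + a ^ 2 * tb r h h := by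
  rw [tb_add_left, tb_add_right, tb_add_right, tb_C_mul_left, tb_C_mul_left, tb_C_mul_left,
    tb_C_mul_left, tb_C_mul_right, tb_C_mul_right, tb_C_mul_right, tb_C_mul_right,
    tb_comm r h f]
  ring

/-- by reflection the form is also nonnegative on `f(1/β) = 0` -/
theorem tb_nonneg_inv (r : ℕ → ℤ) (β : ℝ) (hβ : 1 < β)
    (h : ∀ f : ℝ[X], f.eval β = 0 → 0 ≤ tb r f f) (f : ℝ[X]) (hf : f.eval β⁻¹ = 0) :
    0 ≤ tb r f f := by
  have hb : β ≠ 0 := by positivity
  rw [← tb_reflect r f.natDegree f f le_rfl le_rfl]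
  apply h
  let _ : Invertible β⁻¹ := invertibleOfNonzero (inv_ne_zero hb)
  have h1 := eval₂_reflect_eq_zero_iff (RingHom.id ℝ) β⁻¹ f.natDegree f le_rfl
  have h2 : (⅟ β⁻¹ : ℝ) = β := by rw [invOf_eq_inv, inv_inv]
  rw [h2] at h1
  exact h1.2 hf

theorem pos_of_mul_pos_of_pos_right {x y : ℝ} (h : 0 < x * y) (hy : 0 < y) : 0 < x := by
  by_contra hx
  have := mul_nonpos_of_nonpos_of_nonneg (not_lt.mp hx) hy.le
  linarith

theorem neg_of_mul_pos_of_neg_right {x y : ℝ} (h : 0 < x * y) (hy : y < 0) : x < 0 := by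
  by_contra hx
  have := mul_nonpos_of_nonneg_of_nonpos (not_lt.mp hx) hy.le
  linarith

/-- the key inequality -/
theorem tb_key (r : ℕ → ℤ) (β : ℝ) (hβ : 1 < β)
    (h : ∀ f : ℝ[X], f.eval β = 0 → 0 ≤ tb r f f) (f g : ℝ[X])
    (hf : 0 < f.eval β * f.eval β⁻¹) (hg : g.eval β * g.eval β⁻¹ < 0) :
    0 ≤ -(g.eval β * g.eval β⁻¹) * tb r f f + (f.eval β * f.eval β⁻¹) * tb r g g := by
  set a := f.eval β with ha
  set a' := f.eval β⁻¹ with ha'
  set c := g.eval β with hc
  set c' := g.eval β⁻¹ with hc'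
  have h1 : 0 ≤ c ^ 2 * tb r f f - 2 * (a * c) * tb r f g + a ^ 2 * tb r g g := by
    rw [← tb_comb]
    apply h
    simp only [eval_add, eval_mul, eval_C]
    rw [← ha, ← hc]
    ring
  have h2 : 0 ≤ c' ^ 2 * tb r f f - 2 * (a' * c') * tb r f g + a' ^ 2 * tb r g g := by
    rw [← tb_comb]
    apply tb_nonneg_inv r β hβ h
    simp only [eval_add, eval_mul, eval_C]
    rw [← ha', ← hc']
    ring
  have h3 : (a * c) * (a' * c') < 0 := by
    have : (a * c) * (a' * c') = (a * a') * (c * c') := by ring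
    rw [this]
    exact mul_neg_of_pos_of_neg hf hg
  have hc0 : c ≠ 0 := by rintro h0; rw [h0] at h3; simp at h3
  have hc'0 : c' ≠ 0 := by rintro h0; rw [h0] at h3; simp at h3
  have p1 : 0 < (a * c') * (a' * c') := by
    have : (a * c') * (a' * c') = (a * a') * c' ^ 2 := by ring
    rw [this]; positivity
  have p2 : 0 < (a' * c) * (a * c) := by
    have : (a' * c) * (a * c) = (a * a') * c ^ 2 := by ring
    rw [this]; positivity
  rcases lt_or_gt_of_ne (show a * c ≠ 0 by rintro h0; rw [h0] at h3; simp at h3) with h4 | h4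
  · have h5 : 0 < a' * c' := by
      by_contra h6
      have := mul_nonneg_of_nonpos_of_nonpos h4.le (not_lt.mp h6)
      linarith
    have h6 : 0 ≤ (a' * c') * (c ^ 2 * tb r f f - 2 * (a * c) * tb r f g + a ^ 2 * tb r g g)
        + (-(a * c)) * (c' ^ 2 * tb r f f - 2 * (a' * c') * tb r f g + a' ^ 2 * tb r g g) :=
      add_nonneg (mul_nonneg h5.le h1) (mul_nonneg (by linarith) h2)
    have h7 : (a' * c') * (c ^ 2 * tb r f f - 2 * (a * c) * tb r f g + a ^ 2 * tb r g g)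
        + (-(a * c)) * (c' ^ 2 * tb r f f - 2 * (a' * c') * tb r f g + a' ^ 2 * tb r g g)
        = (a * c' - a' * c) * (-(c * c') * tb r f f + (a * a') * tb r g g) := by ring
    rw [h7] at h6
    have q1 : 0 < a * c' := pos_of_mul_pos_of_pos_right p1 h5
    have q2 : a' * c < 0 := neg_of_mul_pos_of_neg_right p2 h4
    exact nonneg_of_mul_nonneg_right h6 (by linarith)
  · have h5 : a' * c' < 0 := by
      by_contra h6
      have := mul_nonneg h4.le (not_lt.mp h6)
      linarith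
    have h6 : 0 ≤ (-(a' * c')) * (c ^ 2 * tb r f f - 2 * (a * c) * tb r f g + a ^ 2 * tb r g g)
        + (a * c) * (c' ^ 2 * tb r f f - 2 * (a' * c') * tb r f g + a' ^ 2 * tb r g g) :=
      add_nonneg (mul_nonneg (by linarith) h1) (mul_nonneg h4.le h2)
    have h7 : (-(a' * c')) * (c ^ 2 * tb r f f - 2 * (a * c) * tb r f g + a ^ 2 * tb r g g)
        + (a * c) * (c' ^ 2 * tb r f f - 2 * (a' * c') * tb r f g + a' ^ 2 * tb r g g)
        = (a' * c - a * c') * (-(c * c') * tb r f f + (a * a') * tb r g g) := by ring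
    rw [h7] at h6
    have q1 : a * c' < 0 := neg_of_mul_pos_of_neg_right p1 h5
    have q2 : 0 < a' * c := pos_of_mul_pos_of_pos_right p2 h4
    exact nonneg_of_mul_nonneg_right h6 (by linarith)

theorem s_lemma (r : ℕ → ℤ) (β : ℝ) (hβ : 1 < β)
    (h : ∀ f : ℝ[X], f.eval β = 0 → 0 ≤ tb r f f) :
    ∃ l : ℝ, ∀ f : ℝ[X], l * (f.eval β * f.eval β⁻¹) ≤ tb r f f := by
  have hb : (0:ℝ) < β := by linarith
  have hb1 : β⁻¹ < 1 := inv_lt_one_of_one_lt₀ hβ
  -- the set of quotients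
  let S : Set ℝ := {x | ∃ f : ℝ[X], 0 < f.eval β * f.eval β⁻¹ ∧
    x = tb r f f / (f.eval β * f.eval β⁻¹)}
  have hlow : ∀ g : ℝ[X], g.eval β * g.eval β⁻¹ < 0 → ∀ x ∈ S,
      tb r g g / (g.eval β * g.eval β⁻¹) ≤ x := by
    rintro g hg x ⟨f, hf, rfl⟩
    have := tb_key r β hβ h f g hf hg
    rw [div_le_iff_of_neg hg, div_mul_eq_mul_div, div_le_iff₀ hf]
    nlinarith
  have hne : S.Nonempty := ⟨_, 1, by simp, rfl⟩
  have hg0 : (1 - X : ℝ[X]).eval β * (1 - X : ℝ[X]).eval β⁻¹ < 0 := by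
    simp only [eval_sub, eval_one, eval_X]
    exact mul_neg_of_neg_of_pos (by linarith) (by linarith)
  have hbdd : BddBelow S := ⟨_, fun x hx => hlow _ hg0 x hx⟩
  refine ⟨sInf S, fun f => ?_⟩
  rcases lt_trichotomy (f.eval β * f.eval β⁻¹) 0 with h0 | h0 | h0
  · have : tb r f f / (f.eval β * f.eval β⁻¹) ≤ sInf S := le_csInf hne (hlow f h0)
    rwa [div_le_iff_of_neg h0] at this
  · rw [h0, mul_zero]
    rcases mul_eq_zero.1 h0 with h1 | h1
    · exact h f h1
    · exact tb_nonneg_inv r β hβ h f h1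
  · have : sInf S ≤ tb r f f / (f.eval β * f.eval β⁻¹) := csInf_le hbdd ⟨f, h0, rfl⟩
    rwa [le_div_iff₀ h0] at this

end Pool.Agent.MP1f45fc.S
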