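import Mathlib
import Pool.Agent.Lib.MP_1f45fc_nt.SalemC.Defs
import Pool.Agent.Lib.MP_1f45fc_nt.S.Tb

set_option autoImplicit false

/-!
The integer sequence attached to the Taylor coefficients of `ε P / P*` (Salem's construction).
-/

open Polynomial

namespace Pool.Agent.MP1f45fc.S

/-- A symmetric double sum. -/
lemma sum_sym (c : ℕ → ℕ → ℝ) (hc : ∀ i j, c i j = c j i) (M : ℕ) :
    ∑ i ∈ Finset.range M, ∑ j ∈ Finset.range M, c i j =
      ∑ j ∈ Finset.range M, (c j j + 2 * ∑ i ∈ Finset.range j, c i j) := by
  induction M with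
  | zero => simp
  | succ M ih =>
    rw [Finset.sum_range_succ (fun j => c j j + 2 * ∑ i ∈ Finset.range j, c i j), ← ih,
      Finset.sum_range_succ]
    simp only [Finset.sum_range_succ, Finset.sum_add_distrib]
    have h1 : ∑ i ∈ Finset.range M, c M i = ∑ i ∈ Finset.range M, c i M :=
      Finset.sum_congr rfl fun i _ => hc M i
    rw [h1]; ring

/-- The coefficients of `T u p`. -/
lemma T_coeff (u : ℕ → ℤ) (p : ℝ[X]) (N : ℕ) (hp : p.natDegree < N) (j : ℕ) :
    (SalemC.T u p).coeff j =
      ∑ i ∈ Finset.range N, if j ≤ i then (u (i - j) : ℝ) * p.coeff i else 0 := by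
  have h1 : SalemC.T u p = ∑ i ∈ Finset.range N,
      ∑ k ∈ Finset.range (i + 1), monomial k ((u (i - k) : ℝ) * p.coeff i) :=
    sum_over_range' p (by simp) N hp
  rw [h1, finsetSum_coeff]
  refine Finset.sum_congr rfl fun i _ => ?_
  rw [finsetSum_coeff]
  simp only [coeff_monomial]
  by_cases h : j ≤ i
  · rw [if_pos h, Finset.sum_eq_single j]
    · simp
    · intro k _ hk; rw [if_neg hk]
    · intro hj; exact absurd (Finset.mem_range.mpr (by omega)) hj
  · rw [if_neg h]
    refine Finset.sum_eq_zero fun k hk => ?_
    rw [if_neg]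
    have := Finset.mem_range.mp hk
    omega

lemma sq_range (p : ℝ[X]) (N : ℕ) (hp : p.natDegree < N) :
    SalemC.sq p = ∑ i ∈ Finset.range N, p.coeff i ^ 2 :=
  sum_over_range' p (by simp) N hp

/-- Splitting off the first terms of a reflected sum. -/
lemma sum_split (F : ℕ → ℝ) (d n : ℕ) :
    ∑ k ∈ Finset.range (d + n + 1), F k =
      ∑ l ∈ Finset.range (d + 1), F (d - l) + ∑ k ∈ Finset.range n, F (d + n - k) := by
  have h1 : ∑ l ∈ Finset.range (d + 1), F (d - l) = ∑ l ∈ Finset.range (d + 1), F l := by
    have := Finset.sum_range_reflect F (d + 1)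
    simpa using this
  have h2 : ∑ k ∈ Finset.range n, F (d + n - k) = ∑ k ∈ Finset.range n, F (d + 1 + k) := by
    rw [← Finset.sum_range_reflect (fun k => F (d + 1 + k)) n]
    refine Finset.sum_congr rfl fun k hk => ?_
    have := Finset.mem_range.mp hk
    congr 1; omega
  rw [h1, h2, show d + n + 1 = (d + 1) + n by ring, Finset.sum_range_add]

/-- Splitting off the last terms. -/
lemma sum_split' (F : ℕ → ℝ) (d n : ℕ) (hF : ∀ k, k < n → F k = 0) :
    ∑ k ∈ Finset.range (d + n + 1), F k = ∑ j ∈ Finset.range (d + 1), F (d + n - j) := by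
  have h2 : ∑ j ∈ Finset.range (d + 1), F (d + n - j) =
      ∑ j ∈ Finset.range (d + 1), F (n + j) := by
    rw [← Finset.sum_range_reflect (fun k => F (n + k)) (d + 1)]
    refine Finset.sum_congr rfl fun k hk => ?_
    have := Finset.mem_range.mp hk
    congr 1; omega
  rw [h2, show d + n + 1 = n + (d + 1) by ring, Finset.sum_range_add,
    Finset.sum_eq_zero fun k hk => hF k (Finset.mem_range.mp hk), zero_add]

theorem exists_tseq (n : ℕ) (hn : 1 ≤ n) (β : ℝ) (u : ℕ → ℤ) (hC : SalemC.Core n β u) :
    ∃ t : ℕ → ℤ, t 0 = 1 ∧ (∀ k, 1 ≤ k → k < n → t k = 0) ∧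
      (PowerSeries.mk fun k => if k = 0 then (0 : ℤ) else - t k) *
        (1 + PowerSeries.X ^ n * PowerSeries.mk u) = PowerSeries.X ^ n * PowerSeries.mk u ∧
      ∀ f : ℝ[X], f.eval β = 0 → 0 ≤ tb t f f := by
  set w : PowerSeries ℤ := PowerSeries.X ^ n * PowerSeries.mk u with hw
  have hw0 : PowerSeries.constantCoeff w = 0 := by
    rw [hw, map_mul, map_pow, PowerSeries.constantCoeff_X, zero_pow (by omega), zero_mul]
  set V : PowerSeries ℤ := PowerSeries.invOfUnit (1 + w) 1 with hV
  have hV1 : (1 + w) * V = 1 := PowerSeries.mul_invOfUnit _ _ (by simp [hw0])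
  set s : PowerSeries ℤ := w * V with hs
  have hs0 : PowerSeries.coeff 0 s = 0 := by
    rw [PowerSeries.coeff_zero_eq_constantCoeff_apply, hs, map_mul, hw0, zero_mul]
  set t : ℕ → ℤ := fun k => if k = 0 then 1 else - PowerSeries.coeff k s with ht
  have hmk : (PowerSeries.mk fun k => if k = 0 then (0 : ℤ) else - t k) = s := by
    ext k
    rw [PowerSeries.coeff_mk]
    by_cases hk : k = 0
    · rw [if_pos hk, hk, hs0]
    · rw [if_neg hk, ht]; simp [hk]
  refine ⟨t, by simp [ht], ?_, ?_, ?_⟩
  · intro k hk hkn
    have h1 : t k = - PowerSeries.coeff k s := if_neg (by omega)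
    rw [h1, hs, hw, mul_assoc, PowerSeries.coeff_X_pow_mul', if_neg (by omega), neg_zero]
  · rw [hmk, hs]
    calc w * V * (1 + w) = w * ((1 + w) * V) := by ring
      _ = w := by rw [hV1, mul_one]
  · intro f hf
    set φ := PowerSeries.map (Int.castRingHom ℝ) with hφ
    have hVR : (1 + φ w) * φ V = 1 := by rw [← map_one φ, ← map_add, ← map_mul, hV1]
    set a : PowerSeries ℝ := (f : PowerSeries ℝ) with ha
    set g : PowerSeries ℝ := a * φ V with hg
    set y : PowerSeries ℝ := φ w * g with hy
    have hyX : y = PowerSeries.X ^ n * (PowerSeries.mk (fun k => (u k : ℝ)) * g) := by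
      have h1 : φ w = PowerSeries.X ^ n * PowerSeries.mk (fun k => (u k : ℝ)) := by
        rw [hw, map_mul, map_pow, hφ, PowerSeries.map_X]
        congr 1
      rw [hy, h1, mul_assoc]
    have hgy : g + y = a := by
      rw [hy, hg]
      calc a * φ V + φ w * (a * φ V) = a * ((1 + φ w) * φ V) := by ring
        _ = a := by rw [hVR, mul_one]
    have hF : g - y = a - 2 * (a * φ s) := by
      rw [hs, map_mul]
      have h1 : a = a * ((1 + φ w) * φ V) := by rw [hVR, mul_one]
      calc g - y = a * φ V - φ w * (a * φ V) := by rw [hy, hg]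
        _ = a * ((1 + φ w) * φ V) - 2 * (a * (φ w * φ V)) := by ring
        _ = a - 2 * (a * (φ w * φ V)) := by rw [hVR, mul_one]
    have hacoeff : ∀ j, PowerSeries.coeff j a = f.coeff j := fun j => by
      rw [ha, Polynomial.coeff_coe]
    -- coefficients of `F a`
    have hFc : ∀ j, PowerSeries.coeff j (g - y) =
        f.coeff j + 2 * ∑ i ∈ Finset.range j, f.coeff i * (t (j - i) : ℝ) := by
      intro j
      have h2 : (2 : PowerSeries ℝ) * (a * φ s) = PowerSeries.C (2 : ℝ) * (a * φ s) := by
        congr 1
      rw [hF, map_sub, h2, PowerSeries.coeff_C_mul, hacoeff, PowerSeries.coeff_mul,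
        Finset.Nat.sum_antidiagonal_eq_sum_range_succ_mk, Finset.sum_range_succ]
      have h3 : PowerSeries.coeff (j - j) (φ s) = 0 := by
        rw [Nat.sub_self, hφ, PowerSeries.coeff_map, hs0]; simp
      simp only [h3, mul_zero, add_zero]
      rw [sub_eq_add_neg, ← mul_neg, ← Finset.sum_neg_distrib]
      congr 2
      refine Finset.sum_congr rfl fun i hi => ?_
      have hij := Finset.mem_range.mp hi
      rw [hacoeff, hφ, PowerSeries.coeff_map]
      have h4 : t (j - i) = - PowerSeries.coeff (j - i) s := if_neg (by omega)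
      rw [h4]; simp
    set d := f.natDegree with hd
    -- the form as a sum
    have hQ : tb t f f = ∑ j ∈ Finset.range (d + n + 1), ((PowerSeries.coeff j g) ^ 2 -
        (PowerSeries.coeff j y) ^ 2) := by
      rw [tb_range t (d + n + 1) f f (by omega) (by omega),
        sum_sym (fun i j => f.coeff i * f.coeff j * (t (Nat.dist i j) : ℝ))
          (fun i j => by rw [Nat.dist_comm]; ring)]
      refine Finset.sum_congr rfl fun j _ => ?_
      have h1 : PowerSeries.coeff j g + PowerSeries.coeff j y = f.coeff j := by
        rw [← map_add, hgy, hacoeff]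
      have h2 := hFc j
      rw [map_sub] at h2
      have h3 : (PowerSeries.coeff j g) ^ 2 - (PowerSeries.coeff j y) ^ 2 =
          (PowerSeries.coeff j g + PowerSeries.coeff j y) *
          (PowerSeries.coeff j g - PowerSeries.coeff j y) := by ring
      rw [h3, h1, h2, Nat.dist_self]
      have h4 : (t 0 : ℝ) = 1 := by simp [ht]
      rw [h4, mul_add, Finset.mul_sum, Finset.mul_sum, Finset.mul_sum]
      congr 1
      · ring
      · refine Finset.sum_congr rfl fun i hi => ?_
        have hij := Finset.mem_range.mp hi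
        rw [Nat.dist_eq_sub_of_le (by omega)]
        ring
    -- the polynomial to which the core inequality is applied
    set p : ℝ[X] := ∑ l ∈ Finset.range (d + 1), monomial l (PowerSeries.coeff (d - l) g) with hp
    have hpc : ∀ i, i < d + 1 → p.coeff i = PowerSeries.coeff (d - i) g := by
      intro i hi
      rw [hp, finsetSum_coeff]
      simp only [coeff_monomial]
      rw [Finset.sum_eq_single i]
      · simp
      · intro k _ hk; rw [if_neg hk]
      · intro h; exact absurd (Finset.mem_range.mpr hi) h
    have hpd : p.natDegree < d + 1 := by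
      refine Nat.lt_succ_of_le (natDegree_sum_le_of_forall_le _ _ fun l hl => ?_)
      have := Finset.mem_range.mp hl
      exact (natDegree_monomial_le _).trans (by omega)
    have hTc : ∀ j, j < d + 1 → (SalemC.T u p).coeff j = PowerSeries.coeff (d + n - j) y := by
      intro j hj
      rw [T_coeff u p (d + 1) hpd j, hyX,
        PowerSeries.coeff_X_pow_mul', if_pos (by omega), PowerSeries.coeff_mul,
        Finset.Nat.sum_antidiagonal_eq_sum_range_succ_mk]
      have e1 : d + n - j - n = d - j := by omega
      rw [e1]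
      have h5 : ∑ i ∈ Finset.range (d + 1), (if j ≤ i then (u (i - j) : ℝ) * p.coeff i else 0) =
          ∑ i ∈ Finset.range (j + (d - j + 1)),
            (if j ≤ i then (u (i - j) : ℝ) * p.coeff i else 0) := by
        congr 2; omega
      rw [h5, Finset.sum_range_add, Finset.sum_eq_zero, zero_add]
      · refine Finset.sum_congr rfl fun l hl => ?_
        have := Finset.mem_range.mp hl
        rw [if_pos (by omega), hpc _ (by omega), PowerSeries.coeff_mk]
        have e2 : j + l - j = l := by omega
        have e3 : d - (j + l) = d - j - l := by omega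
        rw [e2, e3]
      · intro i hi
        have := Finset.mem_range.mp hi
        rw [if_neg (by omega)]
    have hTd : (SalemC.T u p).natDegree < d + 1 := by
      refine Nat.lt_succ_of_le ?_
      rw [natDegree_le_iff_coeff_eq_zero]
      intro j hj
      rw [T_coeff u p (d + 1) hpd j]
      refine Finset.sum_eq_zero fun i hi => ?_
      have := Finset.mem_range.mp hi
      rw [if_neg (by omega)]
    have hylow : ∀ k, k < n → PowerSeries.coeff k y = 0 := by
      intro k hk
      rw [hyX, PowerSeries.coeff_X_pow_mul', if_neg (by omega)]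
    have hsqp : SalemC.sq p = ∑ l ∈ Finset.range (d + 1), (PowerSeries.coeff (d - l) g) ^ 2 := by
      rw [sq_range p (d + 1) hpd]
      refine Finset.sum_congr rfl fun l hl => ?_
      rw [hpc l (Finset.mem_range.mp hl)]
    have hsqT : SalemC.sq (SalemC.T u p) =
        ∑ j ∈ Finset.range (d + 1), (PowerSeries.coeff (d + n - j) y) ^ 2 := by
      rw [sq_range _ (d + 1) hTd]
      refine Finset.sum_congr rfl fun l hl => ?_
      rw [hTc l (Finset.mem_range.mp hl)]
    set z : ℝ := β⁻¹ with hz
    have hβ : 1 < β := hC.one_lt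
    have hz0 : z ≠ 0 := inv_ne_zero (by linarith)
    have hzβ : z * β = 1 := inv_mul_cancel₀ (by linarith)
    -- evaluation at `1/β`
    have hev : ∑ k ∈ Finset.range n, PowerSeries.coeff (d + n - k) g * z ^ k =
        -((SalemC.T u p).eval z + z ^ n * p.eval z) := by
      have h1 : ∑ k ∈ Finset.range (d + n + 1), f.coeff k * z ^ (d + n - k) = 0 := by
        have h2 : f.eval β = ∑ k ∈ Finset.range (d + n + 1), f.coeff k * β ^ k :=
          eval_eq_sum_range' (by omega) β
        have h3 : ∑ k ∈ Finset.range (d + n + 1), f.coeff k * z ^ (d + n - k) =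
            z ^ (d + n) * f.eval β := by
          rw [h2, Finset.mul_sum]
          refine Finset.sum_congr rfl fun k hk => ?_
          have := Finset.mem_range.mp hk
          have h4 : z ^ (d + n) = z ^ (d + n - k) * z ^ k := by
            rw [← pow_add]; congr 1; omega
          have h5 : z ^ k * β ^ k = 1 := by rw [← mul_pow, hzβ, one_pow]
          rw [h4]
          linear_combination (-(f.coeff k * z ^ (d + n - k))) * h5
        rw [h3, hf, mul_zero]
      have h2 : ∑ k ∈ Finset.range (d + n + 1), f.coeff k * z ^ (d + n - k) =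
          ∑ k ∈ Finset.range (d + n + 1), PowerSeries.coeff k g * z ^ (d + n - k) +
          ∑ k ∈ Finset.range (d + n + 1), PowerSeries.coeff k y * z ^ (d + n - k) := by
        rw [← Finset.sum_add_distrib]
        refine Finset.sum_congr rfl fun k _ => ?_
        rw [← add_mul, ← map_add, hgy, hacoeff]
      rw [sum_split (fun k => PowerSeries.coeff k g * z ^ (d + n - k)),
        sum_split' (fun k => PowerSeries.coeff k y * z ^ (d + n - k)) d n
          (fun k hk => by simp only [hylow k hk, zero_mul]), h1] at h2
      have h3 : ∑ l ∈ Finset.range (d + 1), PowerSeries.coeff (d - l) g * z ^ (d + n - (d - l)) =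
          z ^ n * p.eval z := by
        rw [eval_eq_sum_range' hpd, Finset.mul_sum]
        refine Finset.sum_congr rfl fun l hl => ?_
        have := Finset.mem_range.mp hl
        rw [hpc l this]
        have e : d + n - (d - l) = n + l := by omega
        rw [e, pow_add]; ring
      have h4 : ∑ j ∈ Finset.range (d + 1),
          PowerSeries.coeff (d + n - j) y * z ^ (d + n - (d + n - j)) = (SalemC.T u p).eval z := by
        rw [eval_eq_sum_range' hTd]
        refine Finset.sum_congr rfl fun l hl => ?_
        have := Finset.mem_range.mp hl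
        rw [hTc l this]
        have e : d + n - (d + n - l) = l := by omega
        rw [e]
      have h5 : ∑ k ∈ Finset.range n,
          PowerSeries.coeff (d + n - k) g * z ^ (d + n - (d + n - k)) =
          ∑ k ∈ Finset.range n, PowerSeries.coeff (d + n - k) g * z ^ k := by
        refine Finset.sum_congr rfl fun k hk => ?_
        have := Finset.mem_range.mp hk
        have e : d + n - (d + n - k) = k := by omega
        rw [e]
      rw [h3, h4, h5] at h2
      linarith
    have hcore := hC.ineq p
    have hS : 0 < ∑ i ∈ Finset.range n, (β⁻¹) ^ (2 * i) := by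
      refine Finset.sum_pos (fun i _ => by positivity) ⟨0, Finset.mem_range.mpr (by omega)⟩
    have hCS : (∑ k ∈ Finset.range n, PowerSeries.coeff (d + n - k) g * z ^ k) ^ 2 ≤
        (∑ k ∈ Finset.range n, (PowerSeries.coeff (d + n - k) g) ^ 2) *
          ∑ i ∈ Finset.range n, z ^ (2 * i) := by
      have h1 := Finset.sum_mul_sq_le_sq_mul_sq (Finset.range n)
        (fun k => PowerSeries.coeff (d + n - k) g) (fun k => z ^ k)
      have h2 : ∀ i, (z ^ i) ^ 2 = z ^ (2 * i) := fun i => by rw [← pow_mul, mul_comm]
      simpa only [h2] using h1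
    rw [hev, neg_sq] at hCS
    have h6 : (∑ i ∈ Finset.range n, (β⁻¹) ^ (2 * i)) *
        (SalemC.sq (SalemC.T u p) - SalemC.sq p) ≤ (∑ i ∈ Finset.range n, (β⁻¹) ^ (2 * i)) *
        ∑ k ∈ Finset.range n, (PowerSeries.coeff (d + n - k) g) ^ 2 := by
      refine hcore.trans (hCS.trans (le_of_eq ?_))
      rw [mul_comm]
    have h7 := le_of_mul_le_mul_left h6 hS
    rw [hQ, Finset.sum_sub_distrib, sum_split (fun k => (PowerSeries.coeff k g) ^ 2),
      sum_split' (fun k => (PowerSeries.coeff k y) ^ 2) d n
        (fun k hk => by simp only [hylow k hk]; ring), ← hsqp, ← hsqT]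
    linarith

end Pool.Agent.MP1f45fc.S
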