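import Pool.Agent.Lib.MP_1f45fc_nt.T.Reduce
import Pool.Agent.Lib.MP_1f45fc_nt.S.Tb

/-!
# Positive definite sequences: the class is closed under powers and twists, maximal elements

`PSeq β r p` is the analogue of `T.IsSeq` where the measure is replaced by the positivity of the
Toeplitz form on real polynomials.
-/

set_option autoImplicit false

open Polynomial

namespace Pool.Agent.MP1f45fc.S

/-- Positive definite version of `T.IsSeq` (`β = e ^ t`). -/
def PSeq (β : ℝ) (r : ℕ → ℤ) (p : ℝ) : Prop :=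
  0 < p ∧ r 0 = 2 ∧ ∀ f : ℝ[X], 2 * p * (f.eval β * f.eval β⁻¹) ≤ tb r f f

/-- the sequence of `g` (an integer polynomial): `∑ g_i g_j r_{|k+i-j|}`. -/
noncomputable def twg (r : ℕ → ℤ) (g : ℤ[X]) (k : ℕ) : ℤ :=
  g.sum fun i a => g.sum fun j b => a * b * r (Nat.dist (k + i) j)

/-! ### Basic facts on `tb` -/

lemma tb_monomial (r : ℕ → ℤ) (i j : ℕ) (a b : ℝ) :
    tb r (monomial i a) (monomial j b) = a * b * (r (Nat.dist i j) : ℝ) := by
  unfold tb
  rw [sum_monomial_index _ _ (by simp [Polynomial.sum]), sum_monomial_index _ _ (by simp)]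

lemma tb_zero_left (r : ℕ → ℤ) (g : ℝ[X]) : tb r 0 g = 0 := by
  unfold tb; simp

lemma tb_zero_right (r : ℕ → ℤ) (f : ℝ[X]) : tb r f 0 = 0 := by
  unfold tb; simp [Polynomial.sum]

lemma tb_sum_left {ι : Type} (r : ℕ → ℤ) (s : Finset ι) (F : ι → ℝ[X]) (g : ℝ[X]) :
    tb r (∑ i ∈ s, F i) g = ∑ i ∈ s, tb r (F i) g := by
  classical
  induction s using Finset.induction_on with
  | empty => simp [tb_zero_left]
  | insert a s ha ih => rw [Finset.sum_insert ha, Finset.sum_insert ha, tb_add_left, ih]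

lemma tb_sum_right {ι : Type} (r : ℕ → ℤ) (s : Finset ι) (F : ι → ℝ[X]) (g : ℝ[X]) :
    tb r g (∑ i ∈ s, F i) = ∑ i ∈ s, tb r g (F i) := by
  classical
  induction s using Finset.induction_on with
  | empty => simp [tb_zero_right]
  | insert a s ha ih => rw [Finset.sum_insert ha, Finset.sum_insert ha, tb_add_right, ih]

lemma map_eq_sum (g : ℤ[X]) :
    g.map (Int.castRingHom ℝ) = ∑ k ∈ g.support, monomial k (g.coeff k : ℝ) := by
  conv_lhs => rw [g.as_sum_support]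
  rw [Polynomial.map_sum]
  refine Finset.sum_congr rfl fun k _ => ?_
  rw [map_monomial]
  rfl

lemma twg_cast (r : ℕ → ℤ) (g : ℤ[X]) (k : ℕ) :
    (twg r g k : ℝ) = ∑ i ∈ g.support, ∑ j ∈ g.support,
      (g.coeff i : ℝ) * g.coeff j * r (Nat.dist (k + i) j) := by
  unfold twg Polynomial.sum
  push_cast
  rfl

lemma tb_mul_mono (r : ℕ → ℤ) (g : ℤ[X]) (i j : ℕ) (a b : ℝ) :
    tb r (monomial i a * g.map (Int.castRingHom ℝ)) (monomial j b * g.map (Int.castRingHom ℝ)) =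
      a * b * (twg r g (Nat.dist i j) : ℝ) := by
  rw [map_eq_sum, Finset.mul_sum, Finset.mul_sum, tb_sum_left]
  simp only [tb_sum_right, monomial_mul_monomial, tb_monomial]
  rw [twg_cast, Finset.mul_sum]
  rcases le_total j i with h | h
  · refine Finset.sum_congr rfl fun k _ => ?_
    rw [Finset.mul_sum]
    refine Finset.sum_congr rfl fun l _ => ?_
    have e : Nat.dist (i + k) (j + l) = Nat.dist (Nat.dist i j + k) l := by
      rw [Nat.dist_eq_sub_of_le_right h]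
      unfold Nat.dist
      omega
    rw [e]; ring
  · rw [Finset.sum_comm]
    refine Finset.sum_congr rfl fun k _ => ?_
    rw [Finset.mul_sum]
    refine Finset.sum_congr rfl fun l _ => ?_
    have e : Nat.dist (i + l) (j + k) = Nat.dist (Nat.dist i j + k) l := by
      rw [Nat.dist_eq_sub_of_le h]
      unfold Nat.dist
      omega
    rw [e]; ring

theorem tb_mul (r : ℕ → ℤ) (g : ℤ[X]) (f h : ℝ[X]) :
    tb r (f * g.map (Int.castRingHom ℝ)) (h * g.map (Int.castRingHom ℝ)) = tb (twg r g) f h := by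
  induction f using Polynomial.induction_on' with
  | add p q hp hq => rw [add_mul, tb_add_left, tb_add_left, hp, hq]
  | monomial i a =>
    induction h using Polynomial.induction_on' with
    | add p q hp hq => rw [add_mul, tb_add_right, tb_add_right, hp, hq]
    | monomial j b => rw [tb_mul_mono, tb_monomial]

theorem PSeq.pow {β : ℝ} {r : ℕ → ℤ} {p : ℝ} (h : PSeq β r p) (n : ℕ) (hn : 1 ≤ n) :
    PSeq (β ^ n) (fun k => r (n * k)) p := by
  obtain ⟨hp, h0, h⟩ := h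
  refine ⟨hp, by simpa using h0, fun f => ?_⟩
  have h1 := h (expand ℝ n f)
  rw [expand_eval, expand_eval, tb_expand r n hn, inv_pow] at h1
  exact h1

theorem PSeq.twg {β : ℝ} {r : ℕ → ℤ} {p : ℝ} (h : PSeq β r p) (g : ℤ[X])
    (hg : S.twg r g 0 = 2)
    (hpos : 0 < (g.map (Int.castRingHom ℝ)).eval β * (g.map (Int.castRingHom ℝ)).eval β⁻¹) :
    PSeq β (S.twg r g)
      (p * ((g.map (Int.castRingHom ℝ)).eval β * (g.map (Int.castRingHom ℝ)).eval β⁻¹)) := by
  obtain ⟨hp, h0, h⟩ := h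
  refine ⟨by positivity, hg, fun f => ?_⟩
  have h1 := h (f * g.map (Int.castRingHom ℝ))
  rw [tb_mul, eval_mul, eval_mul] at h1
  refine le_trans (le_of_eq ?_) h1
  ring

/-! ### Lists and polynomials -/

/-- the polynomial of a list -/
noncomputable def lp : List ℤ → ℤ[X]
  | [] => 0
  | a :: A => C a + X * lp A

/-- real version -/
noncomputable def lpR (A : List ℤ) : ℝ[X] := (lp A).map (Int.castRingHom ℝ)

lemma lpR_nil : lpR [] = 0 := by simp [lpR, lp]

lemma lpR_cons (a : ℤ) (A : List ℤ) : lpR (a :: A) = C (a : ℝ) + X * lpR A := by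
  simp [lpR, lp]

lemma lpR_eval (t : ℝ) (A : List ℤ) : (lpR A).eval (Real.exp t) = T.evS t 0 A := by
  induction A with
  | nil => simp [lpR_nil, T.evS]
  | cons a A ih =>
    rw [lpR_cons, eval_add, eval_C, eval_mul, eval_X, ih, T.evS, T.evS_succ]
    simp

lemma tb_one_X (r : ℕ → ℤ) (s : ℕ) (A : List ℤ) :
    tb r 1 (X ^ s * lpR A) = T.dotR (fun k => (r k : ℝ)) s A := by
  induction A generalizing s with
  | nil => simp [lpR_nil, T.dotR, tb_zero_right]
  | cons a A ih =>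
    have e : (X : ℝ[X]) ^ s * lpR (a :: A) = monomial s (a : ℝ) + X ^ (s + 1) * lpR A := by
      rw [lpR_cons, mul_add, ← C_mul_X_pow_eq_monomial]
      ring
    have e1 : (1 : ℝ[X]) = monomial 0 1 := by simp
    rw [e, tb_add_right, ih, T.dotR, e1, tb_monomial]
    simp [Nat.dist]

lemma dotR_shift (f g h : ℕ → ℝ) (s s' u : ℕ) (A : List ℤ)
    (hk : ∀ i, f (s + i) + g (s' + i) = h (u + i)) :
    T.dotR f s A + T.dotR g s' A = T.dotR h u A := by
  induction A generalizing s s' u with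
  | nil => simp [T.dotR]
  | cons a A ih =>
    have h1 := hk 0
    simp only [add_zero] at h1
    simp only [T.dotR]
    rw [← ih (s + 1) (s' + 1) (u + 1) (fun i => by
      have := hk (i + 1)
      convert this using 2 <;> ring_nf), ← h1]
    ring

lemma tb_nrm {r : ℕ → ℤ} (h0 : r 0 = 2) (A : List ℤ) :
    tb r (lpR A) (lpR A) = 2 * (T.nrm r A : ℝ) := by
  unfold T.nrm
  rw [T.quadZ_cast]
  induction A with
  | nil => simp [lpR_nil, T.quadR, tb_zero_left]
  | cons a A ih =>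
    have e1 : C (a : ℝ) = C (a : ℝ) * 1 := by ring
    have h1 := tb_one_X r 1 A
    rw [pow_one] at h1
    have h2 : tb r (1 : ℝ[X]) 1 = 2 := by
      have e2 : (1 : ℝ[X]) = monomial 0 1 := by simp
      rw [e2, tb_monomial]
      simp [Nat.dist, h0]
    rw [lpR_cons, tb_add_left, tb_add_right, tb_add_right, tb_X_mul, ih, e1, tb_C_mul_left,
      tb_C_mul_right, tb_C_mul_left, h2, tb_comm r (X * lpR A), tb_C_mul_left, h1]
    simp only [T.quadR, Int.cast_one]
    ring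

lemma tb_nrm' (r : ℕ → ℤ) (A : List ℤ) :
    tb r (X * lpR A) (lpR A) = (T.nrm' r A : ℝ) := by
  unfold T.nrm'
  rw [T.quadZ_cast]
  induction A with
  | nil => simp [lpR_nil, T.quadR, tb_zero_right]
  | cons a A ih =>
    have e1 : C (a : ℝ) = C (a : ℝ) * 1 := by ring
    have h1 : tb r (1 : ℝ[X]) (lpR A) = T.dotR (fun k => (r k : ℝ)) 0 A := by
      have := tb_one_X r 0 A
      rwa [pow_zero, one_mul] at this
    have h2 := tb_one_X r 2 A
    have h3 : tb r (X : ℝ[X]) 1 = r 1 := by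
      have e2 : (1 : ℝ[X]) = monomial 0 1 := by simp
      have e3 : (X : ℝ[X]) = monomial 1 1 := monomial_one_one_eq_X.symm
      rw [e3, e2, tb_monomial]
      simp [Nat.dist]
    have h4 := dotR_shift (fun k => (r k : ℝ)) (fun k => (r k : ℝ))
      (fun j => ((r (j + 1) + r (j - 1) : ℤ) : ℝ)) 2 0 1 A (fun i => by
        have e4 : 1 + i + 1 = 2 + i := by ring
        have e5 : 1 + i - 1 = 0 + i := by omega
        simp only [e4, e5]
        push_cast
        ring)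
    have h5 : tb r (X : ℝ[X]) (X * lpR A) = tb r 1 (lpR A) := by
      have := tb_X_mul r 1 (lpR A)
      rwa [mul_one] at this
    have e6 : (X : ℝ[X]) * (C (a : ℝ) + X * lpR A) = C (a : ℝ) * X + X * (X * lpR A) := by ring
    have e7 : (X : ℝ[X]) * (X * lpR A) = X ^ 2 * lpR A := by ring
    rw [lpR_cons, e6, tb_add_left, tb_add_right, tb_add_right, tb_X_mul, ih, tb_C_mul_left,
      tb_C_mul_left]
    conv_lhs => rw [e1]
    rw [tb_C_mul_right, tb_C_mul_right, h3, h5, e7, tb_comm r (X ^ 2 * lpR A), h2, h1]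
    simp only [T.quadR]
    rw [← h4]
    ring

/-! ### `Good` -/

lemma PSeq.p_le {β : ℝ} {r : ℕ → ℤ} {p : ℝ} (h : PSeq β r p) : p ≤ 1 := by
  obtain ⟨hp, h0, h⟩ := h
  have h1 := h 1
  have e2 : (1 : ℝ[X]) = monomial 0 1 := by simp
  have h2 : tb r (1 : ℝ[X]) 1 = 2 := by
    rw [e2, tb_monomial]
    simp [Nat.dist, h0]
  rw [h2] at h1
  simp only [eval_one, mul_one] at h1
  linarith

lemma PSeq.ev {β : ℝ} (hβ : 1 < β) (A : List ℤ) :
    (lpR A).eval β * (lpR A).eval β⁻¹ = T.hval (Real.log β) A := by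
  have hb : 0 < β := by linarith
  rw [T.hval_eq, ← lpR_eval, ← lpR_eval, Real.exp_neg, Real.exp_log hb]

lemma PSeq.nrm_ge {β : ℝ} {r : ℕ → ℤ} {p : ℝ} (hβ : 1 < β) (h : PSeq β r p) (A : List ℤ) :
    p * T.hval (Real.log β) A ≤ T.nrm r A := by
  obtain ⟨hp, h0, h⟩ := h
  have h1 := h (lpR A)
  rw [PSeq.ev hβ, tb_nrm h0] at h1
  linarith

lemma PSeq.good {β : ℝ} {r : ℕ → ℤ} {p : ℝ} (hβ : 1 < β) (h : PSeq β r p) :
    T.Good (Real.log β) r := by
  have hb : 0 < β := by linarith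
  have hge := h.nrm_ge hβ
  obtain ⟨hp, h0, h⟩ := h
  refine ⟨Real.log_pos hβ, h0, fun A => ?_, fun A hA => ?_, fun A hA hz => ?_, fun M => ?_⟩
  · have h1 := h ((X - C β) * lpR A)
    have h2 : ((X - C β) * lpR A).eval β = 0 := by simp
    rw [h2, zero_mul, mul_zero] at h1
    have e1 : (X - C β) * lpR A = X * lpR A + C (-β) * lpR A := by
      rw [C_neg]; ring
    rw [e1, tb_add_left, tb_add_right, tb_add_right, tb_X_mul, tb_C_mul_left, tb_C_mul_left,
      tb_C_mul_right, tb_C_mul_right, tb_comm r (lpR A) (X * lpR A), tb_nrm h0, tb_nrm'] at h1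
    have h3 : T.gam (Real.log β) = β + β⁻¹ := by
      unfold T.gam
      rw [Real.cosh_eq, Real.exp_log hb, Real.exp_neg, Real.exp_log hb]
      ring
    rw [h3]
    have h4 : β * (T.nrm' r A : ℝ) ≤ (1 + β * β) * T.nrm r A := by nlinarith
    have h5 : β * ((β + β⁻¹) * (T.nrm r A : ℝ)) = (1 + β * β) * T.nrm r A := by
      field_simp
      ring
    rw [← h5] at h4
    exact le_of_mul_le_mul_left h4 hb
  · have h2 := T.hval_pal_nonneg (Real.log β) A hA
    have h3 : (0 : ℝ) ≤ T.nrm r A := le_trans (by positivity) (hge A)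
    exact_mod_cast h3
  · have h2 := T.hval_pal_nonneg (Real.log β) A hA
    have h3 := hge A
    rw [hz] at h3
    push_cast at h3
    have h4 : 0 ≤ p * T.hval (Real.log β) A := by positivity
    have h5 : p * T.hval (Real.log β) A = 0 := le_antisymm h3 h4
    have h6 : T.hval (Real.log β) A = 0 := by
      rcases mul_eq_zero.mp h5 with h | h
      · exact absurd h hp.ne'
      · exact h
    exact T.evS_zero_of_hval_pal _ A hA h6
  · have hlow : ∀ k : ℕ, p * β ^ k - 2 ≤ r k := by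
      intro k
      have h1 := h (monomial 0 1 + monomial k 1)
      rw [tb_add_left, tb_add_right, tb_add_right, tb_monomial, tb_monomial, tb_monomial,
        tb_monomial] at h1
      simp only [Nat.dist, eval_add, eval_monomial, pow_zero, mul_one, one_mul, Nat.sub_self,
        Nat.zero_sub, Nat.sub_zero, zero_add, add_zero, h0] at h1
      push_cast at h1
      have h3 : 0 < β ^ k := by positivity
      have h4 : 0 < β⁻¹ ^ k := by positivity
      have h5 : β ^ k ≤ (1 + β ^ k) * (1 + β⁻¹ ^ k) := by nlinarith [mul_pos h3 h4]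
      nlinarith [mul_le_mul_of_nonneg_left h5 hp.le]
    have htend : Filter.Tendsto (fun k : ℕ => p * β ^ k - 2) Filter.atTop Filter.atTop := by
      refine Filter.tendsto_atTop_add_const_right _ _ ?_
      exact Filter.Tendsto.const_mul_atTop hp (tendsto_pow_atTop_atTop_of_one_lt hβ)
    obtain ⟨k₀, hk₀⟩ := Filter.eventually_atTop.mp (htend.eventually_gt_atTop (M : ℝ))
    refine ⟨k₀, fun k hk => ?_⟩
    have : (M : ℝ) < r k := lt_of_lt_of_le (hk₀ k hk) (hlow k)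
    exact_mod_cast this

/-! ### Maximal mass -/

lemma near_maxP {β : ℝ} {r₀ : ℕ → ℤ} {p₀ : ℝ} (hβ : 1 < β) (h₀ : PSeq β r₀ p₀) {δ : ℝ}
    (hδ : 0 < δ) :
    ∃ (r : ℕ → ℤ) (p : ℝ), PSeq β r p ∧
      ∀ A : List ℤ, T.nrm r A ≤ 1 → T.hval (Real.log β) A ≤ 1 + δ := by
  set S : Set ℝ := {p | ∃ r, PSeq β r p} with hS
  have hne : S.Nonempty := ⟨p₀, r₀, h₀⟩
  have hbd : BddAbove S := ⟨1, fun p ⟨r, hr⟩ => hr.p_le⟩
  have hp0 : 0 < p₀ := h₀.1
  have hP : 0 < sSup S := lt_of_lt_of_le hp0 (le_csSup hbd ⟨r₀, h₀⟩)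
  have hlt : sSup S / (1 + δ) < sSup S := by
    rw [div_lt_iff₀ (by linarith)]
    nlinarith
  obtain ⟨p, ⟨r, hr⟩, hpr⟩ := exists_lt_of_lt_csSup hne hlt
  refine ⟨r, p, hr, fun A hA => ?_⟩
  rw [div_lt_iff₀ (by linarith)] at hpr
  by_contra hcon
  push Not at hcon
  have hpos : 0 < T.hval (Real.log β) A := by linarith
  have hp : 0 < p := hr.1
  have hX1 : T.nrm r A = 1 := by
    have h4 : (0 : ℝ) < T.nrm r A := lt_of_lt_of_le (by positivity) (hr.nrm_ge hβ A)
    have h5 : 0 < T.nrm r A := by exact_mod_cast h4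
    omega
  have h6 : twg r (lp A) 0 = 2 := by
    have h7 := tb_mul r (lp A) 1 1
    have e2 : (1 : ℝ[X]) = monomial 0 1 := by simp
    have h8 : tb (twg r (lp A)) (1 : ℝ[X]) 1 = twg r (lp A) 0 := by
      rw [e2, tb_monomial]
      simp [Nat.dist]
    rw [h8, one_mul] at h7
    have h9 := tb_nrm hr.2.1 A
    unfold lpR at h9
    rw [h9, hX1] at h7
    push_cast at h7
    have h10 : ((2 : ℤ) : ℝ) = (twg r (lp A) 0 : ℝ) := by
      rw [← h7]; norm_num
    exact_mod_cast h10.symm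
  have h7 := PSeq.ev hβ A
  unfold lpR at h7
  have h5 := le_csSup hbd ⟨_, hr.twg (lp A) h6 (by rw [h7]; exact hpos)⟩
  rw [h7] at h5
  nlinarith

/-- analogue of `T.exists_max` -/
theorem exists_maxP {β : ℝ} {r₀ : ℕ → ℤ} {p₀ : ℝ} (hβ : 1 < β) (h₀ : PSeq β r₀ p₀) :
    ∃ r, T.Max (Real.log β) r := by
  set t := Real.log β with ht0
  have ht : 0 < t := Real.log_pos hβ
  have hs : 0 < Real.sinh t := Real.sinh_pos_iff.mpr ht
  obtain ⟨r, p, hr, hX⟩ := near_maxP hβ h₀ (δ := min 1 (Real.sinh t ^ 2)) (by positivity)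
  rw [← ht0] at hX
  have hg := hr.good hβ
  refine ⟨r, hg, fun k => ?_, fun k l hk hl => ?_⟩
  · rcases k with _ | n
    · rw [hg.zero]; norm_num
    · by_contra hcon
      push Not at hcon
      have h1 := hX ([1] ++ (List.replicate n 0 ++ [1])) (by rw [T.nrm_two]; omega)
      rw [T.hval_two] at h1
      have h2 := Real.one_le_cosh (((n + 1 : ℕ) : ℝ) * t)
      have h3 := min_le_left 1 (Real.sinh t ^ 2)
      linarith
  · obtain ⟨n, rfl⟩ : ∃ n, k = n + 1 := ⟨k - 1, by omega⟩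
    obtain ⟨m, rfl⟩ : ∃ m, l = m + 1 := ⟨l - 1, by omega⟩
    by_contra hcon
    push Not at hcon
    have h1 := hX ([1] ++ (List.replicate n 0 ++ ([-1] ++ (List.replicate m 0 ++ [1]))))
      (by rw [T.nrm_three]; omega)
    rw [T.hval_three] at h1
    have h3 := min_le_right 1 (Real.sinh t ^ 2)
    have e1 : ((n + 1 + (m + 1) : ℕ) : ℝ) * t = ((n + 1 : ℕ) : ℝ) * t + ((m + 1 : ℕ) : ℝ) * t := by
      push_cast; ring
    rw [e1, Real.cosh_add] at h1
    have h4 := Real.one_le_cosh (((n + 1 : ℕ) : ℝ) * t)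
    have h5 := Real.one_le_cosh (((m + 1 : ℕ) : ℝ) * t)
    have h6 : Real.sinh t ≤ Real.sinh (((n + 1 : ℕ) : ℝ) * t) := by
      apply Real.sinh_le_sinh.mpr
      have : (0 : ℝ) ≤ n * t := by positivity
      push_cast; linarith
    have h7 : Real.sinh t ≤ Real.sinh (((m + 1 : ℕ) : ℝ) * t) := by
      apply Real.sinh_le_sinh.mpr
      have : (0 : ℝ) ≤ m * t := by positivity
      push_cast; linarith
    have h8 : Real.sinh t ^ 2 ≤
        Real.sinh (((n + 1 : ℕ) : ℝ) * t) * Real.sinh (((m + 1 : ℕ) : ℝ) * t) := by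
      nlinarith
    nlinarith [mul_nonneg (sub_nonneg.mpr h4) (sub_nonneg.mpr h5), sq_pos_of_pos hs]

/-- analogue of `T.reduce` -/
theorem reduceP {T' : ℝ} {W D : ℕ} {Dc : ℕ → ℕ} (hD : 1 ≤ D) (hDW : D ≤ W)
    (hA : ∀ (t : ℝ) (r : ℕ → ℤ), T.Max t r → T' / 2 ≤ t → t < T' →
      (∀ j, 1 ≤ j → j ≤ W → r j = 0) ∨
      ∃ e, 1 ≤ e ∧ e ≤ W ∧ ∀ j, 1 ≤ j → j ≤ Dc e → r j = T.comb e j)
    (hC : ∀ (t : ℝ) (r : ℕ → ℤ), T.Max t r → T' / 2 ≤ t → t < T' → ∀ e, 1 ≤ e → e ≤ W →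
      ∀ K, Dc e < K → (∀ j, 1 ≤ j → j < K → r j = T.comb e j) → r K = T.comb e K)
    (hB : ∀ (t : ℝ) (r : ℕ → ℤ), T.Max t r → T' / 2 ≤ t → t < T' → ∀ K, W < K →
      (∀ j, 1 ≤ j → j ≤ W → r j = 0) → (∀ j, K - D ≤ j → j < K → r j = 0) → 1 ≤ r K →
      ∃ m, K ≤ m ∧ ∀ i, i < D → r (m + i) = 0)
    {β : ℝ} {r : ℕ → ℤ} {p : ℝ} (hβ : 1 < β) (hr : PSeq β r p) : T' ≤ Real.log β := by
  by_contra hcon
  push Not at hcon
  obtain ⟨n, hn1, hn2, hn3⟩ := T.exists_pow (Real.log_pos hβ) hcon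
  have hβn : 1 < β ^ n := one_lt_pow₀ hβ (by omega)
  obtain ⟨s, hs⟩ := exists_maxP hβn (hr.pow n hn1)
  rw [Real.log_pow] at hs
  have hu := hs.unb
  rcases hA _ _ hs hn2 hn3 with h0 | ⟨e, he1, heW, hc⟩
  · obtain ⟨K, hWK, hz, hK1, hrun⟩ := T.last_run hD hDW hs.nonneg (hu 0) h0
    obtain ⟨m, hm, hm2⟩ := hB _ _ hs hn2 hn3 K hWK h0 hz hK1
    obtain ⟨i, hi, hi2⟩ := hrun m hm
    exact hi2 (hm2 i hi)
  · obtain ⟨k0, hk0⟩ := hu 1
    obtain ⟨K, hK1, hK2, hK3⟩ := T.first_dev (N := Dc e) ⟨k0 + 1, by omega, hk0 _ (by omega)⟩ hc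
    exact hK3 (hC _ _ hs hn2 hn3 e he1 heW K hK1 hK2)

end Pool.Agent.MP1f45fc.S
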