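import Mathlib
import Pool.Agent.Lib.MP_1f45fc_nt.S.PSeq

/-!
# From `l f(β) f(1/β) ≤ tb t f f` to a positive definite sequence
-/

set_option autoImplicit false

open Polynomial

namespace Pool.Agent.MP1f45fc.S

theorem tb_two (r : ℕ → ℤ) (f g : ℝ[X]) : tb (fun k => 2 * r k) f g = 2 * tb r f g := by
  unfold tb
  simp only [Polynomial.sum, Finset.mul_sum]
  refine Finset.sum_congr rfl fun i _ => Finset.sum_congr rfl fun j _ => ?_
  push_cast; ring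

theorem tb_X_pow (r : ℕ → ℤ) (i j : ℕ) : tb r (X ^ i) (X ^ j) = r (Nat.dist i j) := by
  unfold tb
  rw [X_pow_eq_monomial, X_pow_eq_monomial, sum_monomial_index _ _ (by simp [Polynomial.sum]),
    sum_monomial_index _ _ (by simp)]
  simp

theorem tb_neg_left (r : ℕ → ℤ) (f g : ℝ[X]) : tb r (-f) g = - tb r f g := by
  have h := tb_C_mul_left r (-1) f g
  simpa using h

theorem tb_neg_right (r : ℕ → ℤ) (f g : ℝ[X]) : tb r f (-g) = - tb r f g := by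
  rw [tb_comm, tb_neg_left, tb_comm]

theorem tb_one_add (r : ℕ → ℤ) (k : ℕ) :
    tb r (1 + X ^ k) (1 + X ^ k) = 2 * r 0 + 2 * r k := by
  have e : (1 : ℝ[X]) = X ^ 0 := by simp
  rw [e, tb_add_left, tb_add_right, tb_add_right, tb_X_pow, tb_X_pow, tb_X_pow, tb_X_pow]
  simp only [Nat.dist_self, Nat.dist_zero_left, Nat.dist_zero_right]
  ring

theorem tb_one_sub (r : ℕ → ℤ) (k : ℕ) :
    tb r (1 - X ^ k) (1 - X ^ k) = 2 * r 0 - 2 * r k := by
  have e : (1 : ℝ[X]) = X ^ 0 := by simp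
  rw [sub_eq_add_neg, e, tb_add_left, tb_add_right, tb_add_right, tb_neg_left, tb_neg_left,
    tb_neg_right, tb_neg_right, tb_X_pow, tb_X_pow, tb_X_pow, tb_X_pow]
  simp only [Nat.dist_self, Nat.dist_zero_left, Nat.dist_zero_right]
  ring

theorem pseq_of_pos {β : ℝ} {t : ℕ → ℤ} {l : ℝ} (h0 : t 0 = 1) (hl : 0 < l)
    (h : ∀ f : ℝ[X], l * (f.eval β * f.eval β⁻¹) ≤ tb t f f) :
    PSeq β (fun k => 2 * t k) l := by
  refine ⟨hl, by simp [h0], fun f => ?_⟩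
  rw [tb_two]
  linarith [h f]

theorem neg_N {β : ℝ} (hβ : 1 < β) {a : ℕ} (ha : 1 ≤ a) :
    (1 - β ^ a) * (1 - β⁻¹ ^ a) < 0 := by
  have h1 : 1 < β ^ a := one_lt_pow₀ hβ (by omega)
  have h2 : β⁻¹ ^ a < 1 := pow_lt_one₀ (by positivity) (inv_lt_one_of_one_lt₀ hβ) (by omega)
  nlinarith

theorem pseq_of_neg {β : ℝ} (hβ : 1 < β) {t : ℕ → ℤ} {l : ℝ} (h0 : t 0 = 1) (hl : l < 0)
    (h : ∀ f : ℝ[X], l * (f.eval β * f.eval β⁻¹) ≤ tb t f f) (a : ℕ) (ha : 1 ≤ a) (hta : 0 ≤ t a) :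
    ∃ r p, PSeq β r p := by
  have hN := neg_N hβ ha
  have h1 := h (1 - X ^ a)
  rw [tb_one_sub, h0] at h1
  simp only [eval_sub, eval_one, eval_pow, eval_X] at h1
  have h2 : 0 < l * ((1 - β ^ a) * (1 - β⁻¹ ^ a)) := mul_pos_of_neg_of_neg hl hN
  have h3 : (t a : ℝ) < 1 := by push_cast at h1; linarith
  have h4 : t a = 0 := by
    have : t a < 1 := by exact_mod_cast h3
    omega
  set g : ℤ[X] := 1 - X ^ a with hg
  have hgm : g.map (Int.castRingHom ℝ) = 1 - X ^ a := by simp [hg]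
  have key : ∀ f : ℝ[X], l * ((1 - β ^ a) * (1 - β⁻¹ ^ a)) * (f.eval β * f.eval β⁻¹) ≤
      tb (twg t g) f f := by
    intro f
    rw [← tb_mul, hgm]
    have h5 := h (f * (1 - X ^ a))
    simp only [eval_mul, eval_sub, eval_one, eval_pow, eval_X] at h5
    linarith
  refine ⟨twg t g, l * ((1 - β ^ a) * (1 - β⁻¹ ^ a)) / 2, by positivity, ?_, fun f => ?_⟩
  · have h6 : tb (twg t g) 1 1 = 2 := by
      rw [← tb_mul, hgm, one_mul, tb_one_sub, h0, h4]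
      norm_num
    have h7 : tb (twg t g) 1 1 = twg t g 0 := by
      have := tb_X_pow (twg t g) 0 0
      simpa using this
    rw [h7] at h6
    exact_mod_cast h6
  · linarith [key f]

theorem growth {β : ℝ} (hβ : 1 < β) {t : ℕ → ℤ} {l : ℝ} (h0 : t 0 = 1)
    (h : ∀ f : ℝ[X], l * (f.eval β * f.eval β⁻¹) ≤ tb t f f) (k : ℕ) :
    |(t k : ℝ) - l * (β ^ k + (β⁻¹) ^ k) / 2| ≤ 1 - l := by
  have hk : β ^ k * β⁻¹ ^ k = 1 := by
    rw [← mul_pow, mul_inv_cancel₀ (by linarith), one_pow]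
  have h1 := h (1 - X ^ k)
  have h2 := h (1 + X ^ k)
  rw [tb_one_sub, h0] at h1
  rw [tb_one_add, h0] at h2
  simp only [eval_sub, eval_add, eval_one, eval_pow, eval_X] at h1 h2
  have e1 : (1 - β ^ k) * (1 - β⁻¹ ^ k) = 2 - (β ^ k + β⁻¹ ^ k) := by linear_combination hk
  have e2 : (1 + β ^ k) * (1 + β⁻¹ ^ k) = 2 + (β ^ k + β⁻¹ ^ k) := by linear_combination hk
  rw [e1] at h1
  rw [e2] at h2
  push_cast at h1 h2
  rw [abs_le]
  constructor <;> nlinarith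

end Pool.Agent.MP1f45fc.S
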