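import Mathlib

set_option autoImplicit false

open Polynomial

namespace Pool.Agent.MP1f45fc.S

theorem coeff_mk_mul_monomial (s : ℕ → ℝ) (j : ℕ) (a : ℝ) (k : ℕ) :
    PowerSeries.coeff k (PowerSeries.mk s * ((monomial j a : ℝ[X]) : PowerSeries ℝ)) =
      if j ≤ k then a * s (k - j) else 0 := by
  rw [← C_mul_X_pow_eq_monomial, Polynomial.coe_mul, Polynomial.coe_C, Polynomial.coe_pow,
    Polynomial.coe_X, show PowerSeries.mk s * (PowerSeries.C a * PowerSeries.X ^ j) =
      PowerSeries.X ^ j * (PowerSeries.C a * PowerSeries.mk s) by ring, PowerSeries.coeff_X_pow_mul',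
    PowerSeries.coeff_C_mul, PowerSeries.coeff_mk]

theorem hasSum_mul_poly (s : ℕ → ℝ) (z A : ℝ) (h : HasSum (fun k => s k * z ^ k) A) (R : ℝ[X]) :
    HasSum (fun k => PowerSeries.coeff k (PowerSeries.mk s * (R : PowerSeries ℝ)) * z ^ k)
      (A * R.eval z) := by
  induction R using Polynomial.induction_on' with
  | add p q hp hq =>
    have := hp.add hq
    simp only [Polynomial.coe_add, mul_add, map_add, add_mul, eval_add] at this ⊢
    exact this
  | monomial j a =>
    have h1 : HasSum (fun k => s k * z ^ k * (a * z ^ j)) (A * (a * z ^ j)) := h.mul_right _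
    have h2 : Function.Injective (fun k : ℕ => k + j) := add_left_injective j
    have h3 := (h2.hasSum_iff (f := fun k =>
      PowerSeries.coeff k (PowerSeries.mk s * ((monomial j a : ℝ[X]) : PowerSeries ℝ)) * z ^ k)
      (a := A * (monomial j a : ℝ[X]).eval z) ?_)
    · rw [← h3]
      rw [eval_monomial]
      convert h1 using 1
      funext k
      simp only [Function.comp]
      rw [coeff_mk_mul_monomial, if_pos (by omega), Nat.add_sub_cancel, pow_add]
      ring
    · intro k hk
      rw [coeff_mk_mul_monomial, if_neg, zero_mul]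
      intro hjk
      exact hk ⟨k - j, by simp only; omega⟩

theorem eval_of_series (s : ℕ → ℝ) (z A : ℝ) (h : HasSum (fun k => s k * z ^ k) A) (R Z : ℝ[X])
    (hRZ : PowerSeries.mk s * (R : PowerSeries ℝ) = (Z : PowerSeries ℝ)) :
    A * R.eval z = Z.eval z := by
  have h1 := hasSum_mul_poly s z A h R
  rw [hRZ] at h1
  have h2 : HasSum (fun k => PowerSeries.coeff k (Z : PowerSeries ℝ) * z ^ k) (Z.eval z) := by
    have h3 : Z.eval z = ∑ k ∈ Finset.range (Z.natDegree + 1), Z.coeff k * z ^ k :=
      Polynomial.eval_eq_sum_range z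
    rw [h3]
    simp only [Polynomial.coeff_coe]
    apply hasSum_sum_of_ne_finset_zero
    intro k hk
    rw [Finset.mem_range, not_lt] at hk
    rw [Polynomial.coeff_eq_zero_of_natDegree_lt (by omega), zero_mul]
  exact h1.unique h2

end Pool.Agent.MP1f45fc.S
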