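import Mathlib
import Pool.Agent.Lib.MP_1f45fc_nt.S.CoreU
import Pool.Agent.Lib.MP_1f45fc_nt.S.Ser
import Pool.Agent.Lib.MP_1f45fc_nt.S.Lam
import Pool.Agent.Lib.MP_1f45fc_nt.SalemC.Quad

/-!
# `l ≠ 0`, and `θ > 2` if all `t_k ≤ -1`
-/

set_option autoImplicit false

open Polynomial

namespace Pool.Agent.MP1f45fc.S

open Pool.Agent.MP1f45fc.SalemC

/-- the sequence `s_k = - t_k` (`k ≥ 1`), `s_0 = 0` -/
def sq' (t : ℕ → ℤ) (k : ℕ) : ℤ := if k = 0 then 0 else - t k

theorem reverse_inv (P : ℤ[X]) {x : ℝ} (hx : x ≠ 0) :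
    aeval x⁻¹ P.reverse * x ^ P.natDegree = aeval x P := by
  let _ : Invertible x := invertibleOfNonzero hx
  have h := eval₂_reverse_mul_pow (algebraMap ℤ ℝ) x P
  rw [invOf_eq_inv] at h
  exact h

theorem inv_reverse (P : ℤ[X]) {x : ℝ} (hx : x ≠ 0) :
    aeval x⁻¹ P * x ^ P.natDegree = aeval x P.reverse := by
  have h := reverse_inv P (inv_ne_zero hx)
  rw [inv_inv] at h
  rw [← h, mul_assoc, ← mul_pow, inv_mul_cancel₀ hx, one_pow, mul_one]

/-- evaluation of the generating series: `(∑ s_k x^(-k)) Q(x) = ε P*(x)`. -/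
theorem series_eval (P : ℤ[X]) (hP : P.Monic) (hP0 : P.coeff 0 ≠ 0) (n : ℕ) (ε : ℤ)
    (hε : ε = 1 ∨ ε = -1) (t : ℕ → ℤ)
    (hser : (PowerSeries.mk (sq' t)) *
        (1 + PowerSeries.X ^ n * PowerSeries.mk (useq (C ε * P.reverse) P)) =
        PowerSeries.X ^ n * PowerSeries.mk (useq (C ε * P.reverse) P))
    {x : ℝ} (hx : x ≠ 0) {A : ℝ} (hA : HasSum (fun k => (sq' t k : ℝ) * x⁻¹ ^ k) A) :
    A * (x ^ n * aeval x P + ε * aeval x P.reverse) = ε * aeval x P.reverse := by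
  have hu := useq_series P hP hP0 ε hε
  have h1 : PowerSeries.mk (sq' t) * ((P.reverse + C ε * X ^ n * P : ℤ[X]) : PowerSeries ℤ) =
      ((C ε * X ^ n * P : ℤ[X]) : PowerSeries ℤ) := by
    have h2 := congrArg (fun f => (P.reverse : PowerSeries ℤ) * f) hser
    have e1 : ((C ε * X ^ n * P : ℤ[X]) : PowerSeries ℤ) = PowerSeries.X ^ n *
        ((C ε * P : ℤ[X]) : PowerSeries ℤ) := by
      rw [Polynomial.coe_mul, Polynomial.coe_mul, Polynomial.coe_mul, Polynomial.coe_pow, Polynomial.coe_X]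
      ring
    rw [Polynomial.coe_add, e1, ← hu]
    linear_combination h2
  have h3 := congrArg (PowerSeries.map (Int.castRingHom ℝ)) h1
  rw [map_mul, ← Polynomial.polynomial_map_coe, ← Polynomial.polynomial_map_coe] at h3
  have h4 : PowerSeries.map (Int.castRingHom ℝ) (PowerSeries.mk (sq' t)) =
      PowerSeries.mk (fun k => (sq' t k : ℝ)) := by
    ext k; simp
  rw [h4] at h3
  have h5 := eval_of_series _ _ _ hA _ _ h3
  rw [eval_map_real, eval_map_real] at h5
  simp only [map_add, map_mul, map_pow, aeval_X, eq_intCast, map_intCast] at h5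
  have hxm : x ^ (P.natDegree + n) ≠ 0 := pow_ne_zero _ hx
  have e2 := reverse_inv P hx
  have e3 := inv_reverse P hx
  have e4 : x⁻¹ ^ n * x ^ n = 1 := by rw [← mul_pow, inv_mul_cancel₀ hx, one_pow]
  have h6 := congrArg (fun y => y * x ^ (P.natDegree + n)) h5
  have e5 : (aeval x⁻¹ P.reverse + (ε : ℝ) * x⁻¹ ^ n * aeval x⁻¹ P) * x ^ (P.natDegree + n) =
      x ^ n * aeval x P + ε * aeval x P.reverse := by
    rw [pow_add, ← e2, ← e3]
    linear_combination ((ε : ℝ) * aeval x⁻¹ P * x ^ P.natDegree) * e4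
  have e6 : ((ε : ℝ) * x⁻¹ ^ n * aeval x⁻¹ P) * x ^ (P.natDegree + n) = ε * aeval x P.reverse := by
    rw [pow_add, ← e3]
    linear_combination ((ε : ℝ) * aeval x⁻¹ P * x ^ P.natDegree) * e4
  rw [e6, mul_assoc, e5] at h6
  exact h6

/-- real polynomial `Q = X^n P + ε P*` -/
noncomputable def qpoly (P : ℤ[X]) (n : ℕ) (ε : ℤ) : ℝ[X] :=
  (X ^ n * P + C ε * P.reverse).map (Int.castRingHom ℝ)

theorem qpoly_eval (P : ℤ[X]) (n : ℕ) (ε : ℤ) (x : ℝ) :
    (qpoly P n ε).eval x = x ^ n * aeval x P + ε * aeval x P.reverse := by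
  unfold qpoly
  rw [eval_map_real]
  simp

theorem qpoly_monic (P : ℤ[X]) (hP : P.Monic) (hP0 : P.coeff 0 ≠ 0) (n : ℕ) (hn : 1 ≤ n) (ε : ℤ)
    (hε : ε = 1 ∨ ε = -1) : (qpoly P n ε).Monic := by
  unfold qpoly
  apply Monic.map
  apply ((monic_X_pow n).mul hP).add_of_left
  apply degree_lt_degree
  rw [natDegree_eps_reverse P hP0 ε hε, (monic_X_pow n).natDegree_mul hP, natDegree_X_pow]
  omega

/-- a monic real polynomial (of positive degree) without zeros on `[a, ∞)` is positive there -/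
theorem pos_of_no_root {Q : ℝ[X]} (hQ : Q.Monic) {a : ℝ} (h : ∀ x, a ≤ x → Q.eval x ≠ 0) :
    0 < Q.eval a := by
  by_contra hcon
  push Not at hcon
  have hneg : Q.eval a < 0 := lt_of_le_of_ne hcon (h a le_rfl)
  have hdeg : 0 < Q.degree := by
    by_contra hd
    push Not at hd
    have h1 : Q = 1 := hQ.degree_le_zero_iff_eq_one.1 hd
    rw [h1, eval_one] at hneg
    linarith
  have ht := Polynomial.tendsto_atTop_of_leadingCoeff_nonneg Q hdeg (by rw [hQ.leadingCoeff]; norm_num)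
  obtain ⟨b, hb⟩ := (ht.eventually_gt_atTop 0).and (Filter.eventually_ge_atTop a) |>.exists
  have hc : ContinuousOn (fun x => Q.eval x) (Set.Icc a b) := Q.continuous.continuousOn
  obtain ⟨x, hx, hx0⟩ := intermediate_value_Icc hb.2 hc (show (0 : ℝ) ∈ Set.Icc (Q.eval a) (Q.eval b) from
    ⟨hneg.le, hb.1.le⟩)
  exact h x hx.1 hx0

/-- convergence for `x > β` -/
theorem summable_s {β : ℝ} (hβ : 1 < β) {t : ℕ → ℤ} {l : ℝ} (h0 : t 0 = 1)
    (h : ∀ f : ℝ[X], l * (f.eval β * f.eval β⁻¹) ≤ tb t f f) {x : ℝ} (hx : β < x) :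
    Summable fun k => (sq' t k : ℝ) * x⁻¹ ^ k := by
  have hx0 : 0 < x := by linarith
  have hβ0 : 0 < β := by linarith
  have hr : β * x⁻¹ < 1 := by
    rw [← div_eq_mul_inv, div_lt_one hx0]; exact hx
  have hr0 : 0 ≤ β * x⁻¹ := by positivity
  refine Summable.of_norm_bounded (g := fun k => (1 + 2 * |l|) * (β * x⁻¹) ^ k)
    ((summable_geometric_of_lt_one hr0 hr).mul_left _) fun k => ?_
  rw [norm_mul, norm_pow, Real.norm_eq_abs, Real.norm_eq_abs, abs_of_pos (inv_pos.2 hx0), mul_pow,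
    ← mul_assoc]
  refine mul_le_mul_of_nonneg_right ?_ (by positivity)
  have h1 : 1 ≤ β ^ k := one_le_pow₀ hβ.le
  have h2 : β⁻¹ ^ k ≤ 1 := pow_le_one₀ (by positivity) (inv_le_one_of_one_le₀ hβ.le)
  have h3 : 0 < β⁻¹ ^ k := by positivity
  have hg := growth hβ h0 h k
  have hl := abs_nonneg l
  have h4 : |(t k : ℝ)| ≤ (1 + 2 * |l|) * β ^ k := by
    have h5 : |l * (β ^ k + β⁻¹ ^ k) / 2| ≤ |l| * β ^ k := by
      rw [abs_div, abs_mul, abs_of_pos (show (0 : ℝ) < 2 by norm_num),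
        abs_of_pos (show 0 < β ^ k + β⁻¹ ^ k by positivity)]
      nlinarith
    have h6 : 1 - l ≤ 1 + |l| := by linarith [neg_abs_le l]
    have h7 : |(t k : ℝ)| ≤ |(t k : ℝ) - l * (β ^ k + β⁻¹ ^ k) / 2| + |l * (β ^ k + β⁻¹ ^ k) / 2| := by
      have := abs_add_le ((t k : ℝ) - l * (β ^ k + β⁻¹ ^ k) / 2) (l * (β ^ k + β⁻¹ ^ k) / 2)
      simpa using this
    nlinarith
  unfold sq'
  split_ifs with hk
  · simp; positivity
  · push_cast
    rw [abs_neg]
    exact h4

/-- (A): `l ≠ 0` -/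
theorem l_ne_zero (P : ℤ[X]) (hP : P.Monic) (hP0 : P.coeff 0 ≠ 0) (n : ℕ) (ε : ℤ)
    (hε : ε = 1 ∨ ε = -1) {β : ℝ} (hβ : 1 < β) (hPβ : aeval β P ≠ 0)
    (heq : β ^ n * aeval β P + ε * aeval β P.reverse = 0) {t : ℕ → ℤ} (h0 : t 0 = 1)
    (hser : (PowerSeries.mk (sq' t)) *
        (1 + PowerSeries.X ^ n * PowerSeries.mk (useq (C ε * P.reverse) P)) =
        PowerSeries.X ^ n * PowerSeries.mk (useq (C ε * P.reverse) P)) {l : ℝ}
    (h : ∀ f : ℝ[X], l * (f.eval β * f.eval β⁻¹) ≤ tb t f f) : l ≠ 0 := by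
  intro hl
  have hβ0 : 0 < β := by linarith
  have hs : Summable fun k => (sq' t k : ℝ) * β⁻¹ ^ k := by
    refine Summable.of_norm_bounded (g := fun k => β⁻¹ ^ k)
      (summable_geometric_of_lt_one (by positivity) (inv_lt_one_of_one_lt₀ hβ)) fun k => ?_
    rw [norm_mul, norm_pow, Real.norm_eq_abs, Real.norm_eq_abs, abs_of_pos (inv_pos.2 hβ0)]
    have hg := growth hβ h0 h k
    rw [hl] at hg
    have h1 : |(sq' t k : ℝ)| ≤ 1 := by
      unfold sq'
      split_ifs with hk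
      · simp
      · push_cast
        rw [abs_neg]
        simpa using hg
    have h2 : 0 < β⁻¹ ^ k := by positivity
    nlinarith
  have h1 := series_eval P hP hP0 n ε hε t hser hβ0.ne' hs.hasSum
  rw [heq, mul_zero] at h1
  rw [← h1, add_zero] at heq
  rcases mul_eq_zero.1 heq with h2 | h2
  · exact absurd h2 (pow_ne_zero _ hβ0.ne')
  · exact hPβ h2

theorem hasSum_pos {s : ℕ → ℤ} (h0 : s 0 = 0) (hs : ∀ k, 1 ≤ k → 1 ≤ s k) {z A : ℝ} (hz : 0 < z)
    (hA : HasSum (fun k => (s k : ℝ) * z ^ k) A) : 0 < A := by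
  have h1 : ∀ k, 0 ≤ (s k : ℝ) * z ^ k := by
    intro k
    rcases Nat.eq_zero_or_pos k with hk | hk
    · rw [hk, h0]; simp
    · have : (1 : ℝ) ≤ s k := by exact_mod_cast hs k hk
      positivity
  have h2 := hA.summable.tsum_pos h1 1 (by
    have : (1 : ℝ) ≤ s 1 := by exact_mod_cast hs 1 le_rfl
    positivity)
  rwa [hA.tsum_eq] at h2

theorem geo_shift {z : ℝ} (h0 : 0 ≤ z) (h1 : z < 1) :
    HasSum (fun k : ℕ => if k = 0 then (0 : ℝ) else z ^ k) (z * (1 - z)⁻¹) := by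
  have h2 := (hasSum_geometric_of_lt_one h0 h1).sub (hasSum_ite_eq (0 : ℕ) (1 : ℝ))
  have e : (1 - z)⁻¹ - 1 = z * (1 - z)⁻¹ := by
    have : 1 - z ≠ 0 := by linarith
    field_simp
    ring
  rw [e] at h2
  have h3 : (fun k : ℕ => if k = 0 then (0 : ℝ) else z ^ k) =
      fun k : ℕ => z ^ k - if k = 0 then (1 : ℝ) else 0 := by
    funext k
    split_ifs with hk
    · simp [hk]
    · simp
  rw [h3]
  exact h2

/-- (B): in the non-crossing case with all `t_a ≤ -1` one has `θ > 2` -/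
theorem theta_gt (P : ℤ[X]) (hP : P.Monic) (θ : ℝ) (hθ : 1 < θ) (D : ℝ[X])
    (hPD : P.map (Int.castRingHom ℝ) = (X - C θ) * D)
    (hroots : ∀ z : ℂ, aeval z D = 0 → ‖z‖ < 1) (hP0 : P.coeff 0 ≠ 0) (n : ℕ) (hn : 1 ≤ n) (ε : ℤ)
    (hε : ε = 1 ∨ ε = -1) {β : ℝ} (hβ : 1 < β) (hPβ : aeval β P ≠ 0)
    (heq : β ^ n * aeval β P + ε * aeval β P.reverse = 0) {t : ℕ → ℤ} (h0 : t 0 = 1)
    (hser : (PowerSeries.mk (sq' t)) *
        (1 + PowerSeries.X ^ n * PowerSeries.mk (useq (C ε * P.reverse) P)) =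
        PowerSeries.X ^ n * PowerSeries.mk (useq (C ε * P.reverse) P)) {l : ℝ} (hl : l < 0)
    (h : ∀ f : ℝ[X], l * (f.eval β * f.eval β⁻¹) ≤ tb t f f)
    (ht : ∀ a, 1 ≤ a → t a ≤ -1) : 2 < θ := by
  have hβ0 : 0 < β := by linarith
  have hε2 : (ε : ℝ) * ε = 1 := by rcases hε with h | h <;> simp [h]
  have hs0 : sq' t 0 = 0 := by simp [sq']
  have hs1 : ∀ k, 1 ≤ k → 1 ≤ sq' t k := by
    intro k hk
    unfold sq'
    rw [if_neg (by omega)]
    linarith [ht k hk]
  have hPr : (P.map (Int.castRingHom ℝ)).Monic := hP.map _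
  have hDm : D.Monic := by
    have h1 : ((X - C θ) * D).Monic := by rw [← hPD]; exact hPr
    exact (monic_X_sub_C θ).of_mul_monic_left h1
  have hPθ : aeval θ P = 0 := by rw [← eval_map_real, hPD]; simp
  -- `P > 0` to the right of `θ`
  have hPpos : ∀ x, θ < x → 0 < aeval x P := by
    intro x hx
    have h1 : 0 < D.eval x := by
      apply pos_of_no_root hDm
      intro y hy hy0
      have h2 := hroots (y : ℂ) (by
        rw [show (y : ℂ) = algebraMap ℝ ℂ y from rfl, aeval_algebraMap_apply]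
        simp [hy0])
      rw [Complex.norm_real, Real.norm_eq_abs, abs_of_pos (by linarith)] at h2
      linarith
    rw [← eval_map_real, hPD, eval_mul, eval_sub, eval_X, eval_C]
    exact mul_pos (by linarith) h1
  -- step 1
  have hβθ : β < θ := by
    by_contra hcon
    push Not at hcon
    have hlt : θ < β := by
      rcases lt_or_eq_of_le hcon with h1 | h1
      · exact h1
      · rw [h1] at hPθ; exact absurd hPθ hPβ
    have h1 : (ε : ℝ) * aeval β P.reverse < 0 := by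
      have h2 : 0 < β ^ n * aeval β P := mul_pos (by positivity) (hPpos β hlt)
      linarith
    have hcont : Continuous fun x : ℝ => (ε : ℝ) * aeval x P.reverse := by
      have : (fun x : ℝ => (ε : ℝ) * aeval x P.reverse) =
          fun x => (ε : ℝ) * (P.reverse.map (Int.castRingHom ℝ)).eval x := by
        funext x; rw [eval_map_real]
      rw [this]
      exact continuous_const.mul (Polynomial.continuous _)
    obtain ⟨x0, hx0, hx0'⟩ : ∃ x0, β < x0 ∧ (ε : ℝ) * aeval x0 P.reverse < 0 := by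
      have h3 := (hcont.tendsto β).eventually (gt_mem_nhds h1)
      have h4 : ∀ᶠ x in nhdsWithin β (Set.Ioi β), (ε : ℝ) * aeval x P.reverse < 0 :=
        h3.filter_mono nhdsWithin_le_nhds
      have h5 : ∀ᶠ x in nhdsWithin β (Set.Ioi β), β < x := self_mem_nhdsWithin
      obtain ⟨x, hx, hx'⟩ := (h4.and h5).exists
      exact ⟨x, hx', hx⟩
    have hx00 : 0 < x0 := by linarith
    have hsum := (summable_s hβ h0 h hx0).hasSum
    have hA := hasSum_pos hs0 hs1 (inv_pos.2 hx00) hsum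
    have h6 := series_eval P hP hP0 n ε hε t hser hx00.ne' hsum
    have h7 : (qpoly P n ε).eval x0 < 0 := by
      rw [qpoly_eval]
      by_contra hc
      push Not at hc
      have := mul_nonneg hA.le hc
      linarith
    have h8 : ∃ x1, x0 ≤ x1 ∧ (qpoly P n ε).eval x1 = 0 := by
      by_contra hc
      push Not at hc
      have := pos_of_no_root (qpoly_monic P hP hP0 n hn ε hε) hc
      linarith
    obtain ⟨x1, hx1, hx1'⟩ := h8
    have hx10 : 0 < x1 := by linarith
    rw [qpoly_eval] at hx1'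
    have hsum1 := (summable_s hβ h0 h (show β < x1 by linarith)).hasSum
    have h9 := series_eval P hP hP0 n ε hε t hser hx10.ne' hsum1
    rw [hx1', mul_zero] at h9
    rw [← h9, add_zero] at hx1'
    have h10 := mul_pos (pow_pos hx10 n) (hPpos x1 (by linarith))
    linarith
  -- step 2
  have hθ0 : 0 < θ := by linarith
  have hsum := (summable_s hβ h0 h hβθ).hasSum
  have h6 := series_eval P hP hP0 n ε hε t hser hθ0.ne' hsum
  rw [hPθ, mul_zero, zero_add] at h6
  by_cases hPr0 : aeval θ P.reverse = 0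
  · have h7 : aeval θ⁻¹ P = 0 := by
      have h8 := inv_reverse P hθ0.ne'
      rw [hPr0] at h8
      rcases mul_eq_zero.1 h8 with h9 | h9
      · exact h9
      · exact absurd h9 (pow_ne_zero _ hθ0.ne')
    have h10 := quad_case P hP θ hθ D hPD hroots hP0 h7
    have h11 : θ⁻¹ < 1 := inv_lt_one_of_one_lt₀ hθ
    linarith
  · have h7 : ∑' k, (sq' t k : ℝ) * θ⁻¹ ^ k = 1 := by
      have h8 : (ε : ℝ) * aeval θ P.reverse ≠ 0 := by
        refine mul_ne_zero ?_ hPr0
        intro h9; rw [h9] at hε2; norm_num at hε2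
      have h9 := mul_right_cancel₀ h8 (h6.trans (one_mul _).symm)
      exact h9
    have hz1 : θ⁻¹ < 1 := inv_lt_one_of_one_lt₀ hθ
    have hz0 : 0 < θ⁻¹ := inv_pos.2 hθ0
    have hgeo := geo_shift hz0.le hz1
    have hunb : ∃ k, 1 ≤ k ∧ 2 ≤ sq' t k := by
      have h8 : Filter.Tendsto (fun k : ℕ => -l * β ^ k / 2) Filter.atTop Filter.atTop := by
        have := (tendsto_pow_atTop_atTop_of_one_lt hβ).const_mul_atTop
          (show 0 < -l / 2 by linarith)
        refine this.congr fun k => by ring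
      obtain ⟨k, hk, hk1⟩ := ((h8.eventually_gt_atTop (1 + (1 - l))).and
        (Filter.eventually_ge_atTop 1)).exists
      refine ⟨k, hk1, ?_⟩
      have hg := (abs_le.1 (growth hβ h0 h k)).2
      have h9 : 0 < β⁻¹ ^ k := by positivity
      have h10 : (1 : ℝ) < sq' t k := by
        unfold sq'
        rw [if_neg (by omega)]
        push_cast
        nlinarith
      have : 1 < sq' t k := by exact_mod_cast h10
      omega
    obtain ⟨k0, hk0, hk0'⟩ := hunb
    have hlt : θ⁻¹ * (1 - θ⁻¹)⁻¹ < ∑' k, (sq' t k : ℝ) * θ⁻¹ ^ k := by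
      refine hasSum_lt (i := k0) (fun k => ?_) ?_ hgeo hsum
      · simp only
        split_ifs with hk
        · rw [hk, hs0]; simp
        · have h8 : (1 : ℝ) ≤ sq' t k := by exact_mod_cast hs1 k (by omega)
          have h9 : 0 < θ⁻¹ ^ k := by positivity
          nlinarith
      · rw [if_neg (by omega)]
        have h8 : (2 : ℝ) ≤ sq' t k0 := by exact_mod_cast hk0'
        have h9 : 0 < θ⁻¹ ^ k0 := by positivity
        nlinarith
    rw [h7, ← div_eq_mul_inv, div_lt_one (by linarith)] at hlt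
    have h8 : θ⁻¹ < 1 / 2 := by linarith
    rw [inv_lt_comm₀ hθ0 (by norm_num)] at h8
    linarith

end Pool.Agent.MP1f45fc.S
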