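import Mathlib
import Pool.Agent.Lib.MP_1f45fc_nt.S.Theta
import Pool.Agent.Lib.MP_1f45fc_nt.S.SLem
import Pool.Agent.Lib.MP_1f45fc_nt.S.TSeq
import Pool.Agent.Lib.MP_1f45fc_nt.SalemC.Final

/-!
# Salem's construction: the final reduction to positive definite sequences
-/

set_option autoImplicit false

open Polynomial

namespace Pool.Agent.MP1f45fc.S

open Pool.Agent.MP1f45fc.SalemC

theorem series_unique (P : ℤ[X]) (hP0 : P.coeff 0 ≠ 0) (hP : P.Monic) (n : ℕ) (hn : 1 ≤ n) (ε : ℤ)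
    (hε : ε = 1 ∨ ε = -1) {t : ℕ → ℤ}
    (hser : (PowerSeries.mk (sq' t)) *
        (1 + PowerSeries.X ^ n * PowerSeries.mk (useq (C ε * P.reverse) P)) =
        PowerSeries.X ^ n * PowerSeries.mk (useq (C ε * P.reverse) P)) {s : PowerSeries ℤ}
    (hs : ((P.reverse + C ε * X ^ n * P : ℤ[X]) : PowerSeries ℤ) * s =
      ((C ε * X ^ n * P : ℤ[X]) : PowerSeries ℤ)) : PowerSeries.mk (sq' t) = s := by
  have h1 := useq_series P hP hP0 ε hε
  have hQ : ((P.reverse + C ε * X ^ n * P : ℤ[X]) : PowerSeries ℤ) ≠ 0 := by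
    intro h
    have h2 := congrArg (PowerSeries.coeff 0) h
    rw [Polynomial.coeff_coe, coeff_add, coeff_zero_reverse, hP.leadingCoeff,
      mul_assoc, coeff_C_mul, coeff_X_pow_mul', if_neg (by omega)] at h2
    simp at h2
  apply mul_left_cancel₀ hQ
  rw [hs]
  have h3 : ((C ε * X ^ n * P : ℤ[X]) : PowerSeries ℤ) =
      PowerSeries.X ^ n * ((C ε * P : ℤ[X]) : PowerSeries ℤ) := by
    push_cast
    ring
  have h4 : ((P.reverse + C ε * X ^ n * P : ℤ[X]) : PowerSeries ℤ) =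
      (P.reverse : PowerSeries ℤ) + ((C ε * X ^ n * P : ℤ[X]) : PowerSeries ℤ) := by
    push_cast
    ring
  rw [h4, h3, ← h1]
  calc ((P.reverse : PowerSeries ℤ) + PowerSeries.X ^ n * ((P.reverse : PowerSeries ℤ) *
        PowerSeries.mk (useq (C ε * P.reverse) P))) * PowerSeries.mk (sq' t)
      = (P.reverse : PowerSeries ℤ) * (PowerSeries.mk (sq' t) *
        (1 + PowerSeries.X ^ n * PowerSeries.mk (useq (C ε * P.reverse) P))) := by ring
    _ = _ := by rw [hser]; ring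

/-- In Salem's construction with `n ≥ 2` or `θ ≤ 2` one finds a crossing root. -/
theorem exists_pseq (P : ℤ[X]) (hP : P.Monic) (θ : ℝ) (hθ : 1 < θ) (D : ℝ[X])
    (hPD : P.map (Int.castRingHom ℝ) = (X - C θ) * D)
    (hroots : ∀ z : ℂ, aeval z D = 0 → ‖z‖ < 1) (hP0 : P.coeff 0 ≠ 0) (n : ℕ) (hn : 1 ≤ n) (ε : ℤ)
    (hε : ε = 1 ∨ ε = -1) {β : ℝ} (hβ : 1 < β) (hPβ : aeval β P ≠ 0)
    (heq : β ^ n * aeval β P + ε * aeval β P.reverse = 0) (s : PowerSeries ℤ)
    (hs : ((P.reverse + C ε * X ^ n * P : ℤ[X]) : PowerSeries ℤ) * s =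
      ((C ε * X ^ n * P : ℤ[X]) : PowerSeries ℤ))
    (hcase : 2 ≤ n ∨ θ ≤ 2 ∨ ∃ a, 1 ≤ a ∧ PowerSeries.coeff a s ≤ 0) :
    ∃ r p, PSeq β r p := by
  have hcore := core_useq P hP θ hθ D hPD hroots hP0 n hn ε hε β hβ hPβ heq
  obtain ⟨t, h0, htn, hser, hpos⟩ := exists_tseq n hn β _ hcore
  obtain ⟨l, hl⟩ := s_lemma t β hβ hpos
  have hl0 := l_ne_zero P hP hP0 n ε hε hβ hPβ heq h0 hser hl
  rcases lt_or_gt_of_ne hl0 with h | h
  · by_cases hex : ∃ a, 1 ≤ a ∧ 0 ≤ t a
    · obtain ⟨a, ha, hta⟩ := hex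
      exact pseq_of_neg hβ h0 h hl a ha hta
    · push Not at hex
      have ht : ∀ a, 1 ≤ a → t a ≤ -1 := fun a ha => by
        have := hex a ha
        omega
      exfalso
      rcases hcase with hc | hc | ⟨a, ha, hsa⟩
      · have h1 := htn 1 le_rfl (by omega)
        have h2 := ht 1 le_rfl
        omega
      · have := theta_gt P hP θ hθ D hPD hroots hP0 n hn ε hε hβ hPβ heq h0 hser h hl ht
        linarith
      · have h1 := ht a ha
        rw [← series_unique P hP0 hP n hn ε hε hser hs, PowerSeries.coeff_mk, sq',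
          if_neg (by omega)] at hsa
        omega
  · exact ⟨_, _, pseq_of_pos h0 h hl⟩

/-- Theorem S, from the bound for positive definite sequences. -/
theorem salem_all_of (τ : ℝ) (hτ : aeval τ lehmer = 0)
    (hbound : ∀ (β : ℝ) (r : ℕ → ℤ) (p : ℝ), 1 < β → PSeq β r p → τ ≤ β)
    (P : ℤ[X]) (hP : P.Monic) (θ : ℝ) (hθ : 1 < θ)
    (hθP : aeval θ P = 0) (hθs : aeval θ (derivative P) ≠ 0)
    (hroots : ∀ z : ℂ, aeval z P = 0 → z ≠ (θ : ℂ) → ‖z‖ < 1)
    (n : ℕ) (ε : ℤ) (hn1 : 1 ≤ n) (hε : ε = 1 ∨ ε = -1) (s : PowerSeries ℤ)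
    (hs : ((P.reverse + C ε * X ^ n * P : ℤ[X]) : PowerSeries ℤ) * s =
      ((C ε * X ^ n * P : ℤ[X]) : PowerSeries ℤ))
    (hn : 2 ≤ n ∨ θ ≤ 2 ∨ ∃ a, 1 ≤ a ∧ PowerSeries.coeff a s ≤ 0) (β : ℝ) (hβ : 1 < β)
    (heq : β ^ n * aeval β P + ε * aeval β P.reverse = 0) : τ ≤ β := by
  by_contra hlt
  push Not at hlt
  have hτ' : evl leh τ = 0 := by rw [evl_leh, ← aeval_lehmer, hτ]
  have hP0 : P ≠ 0 := hP.ne_zero
  -- remove the factor X^k
  obtain ⟨P1, hP1⟩ : X ^ P.natTrailingDegree ∣ P := by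
    rw [X_pow_dvd_iff]
    intro d hd
    exact coeff_eq_zero_of_lt_natTrailingDegree hd
  set k := P.natTrailingDegree with hk
  have hP1c : P1.coeff 0 ≠ 0 := by
    have : P.coeff k ≠ 0 := by
      rw [hk]
      exact mem_support_iff.mp (natTrailingDegree_mem_support_of_nonzero hP0)
    rw [hP1, coeff_X_pow_mul'] at this
    simpa using this
  have hP1m : P1.Monic := by
    have h1 : (X ^ k * P1).Monic := by rw [← hP1]; exact hP
    exact (monic_X_pow k).of_mul_monic_left h1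
  have hrev : P.reverse = P1.reverse := by
    conv_lhs => rw [hP1]
    rw [mul_comm]
    exact reverse_mul_X_pow P1 k
  have hθ0 : θ ^ k ≠ 0 := pow_ne_zero k (by linarith)
  have hP1θ : aeval θ P1 = 0 := by
    rw [hP1] at hθP
    simp only [map_mul, map_pow, aeval_X] at hθP
    rcases mul_eq_zero.mp hθP with h | h
    · exact absurd h hθ0
    · exact h
  have hPmap : (P1.map (Int.castRingHom ℝ)).IsRoot θ := by
    rw [IsRoot.def, eval_map_real]; exact hP1θ
  obtain ⟨D, hD⟩ := dvd_iff_isRoot.mpr hPmap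
  -- the remaining roots
  have hDroots : ∀ z : ℂ, aeval z D = 0 → ‖z‖ < 1 := by
    intro z hz
    have h1 : aeval z P1 = 0 := by
      rw [← aeval_map_real, hD, map_mul, hz, mul_zero]
    have h2 : aeval z P = 0 := by rw [hP1, map_mul, h1, mul_zero]
    refine hroots z h2 ?_
    intro hzθ
    rw [hzθ] at hz
    have hDθ : D.eval θ = 0 := by
      have h3 : aeval (θ : ℂ) D = ((D.eval θ : ℝ) : ℂ) := by
        rw [show (θ : ℂ) = algebraMap ℝ ℂ θ from rfl, aeval_algebraMap_apply]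
        simp
      rw [h3] at hz
      exact_mod_cast hz
    apply hθs
    have h4 : aeval θ (derivative P) = (derivative (P.map (Int.castRingHom ℝ))).eval θ := by
      rw [derivative_map, eval_map_real]
    rw [h4, hP1, Polynomial.map_mul, hD, derivative_mul, derivative_mul]
    simp [hDθ]
  have heq1 : β ^ (n + k) * aeval β P1 + ε * aeval β P1.reverse = 0 := by
    have h1 : aeval β P = β ^ k * aeval β P1 := by
      conv_lhs => rw [hP1]
      simp
    rw [h1, hrev] at heq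
    rw [← heq]; ring
  have hP1β : aeval β P1 ≠ 0 := by
    intro h0
    have hβθ : β = θ := by
      by_contra hne
      have h1 : aeval (β : ℂ) P = 0 := by
        rw [show (β : ℂ) = algebraMap ℝ ℂ β from rfl, aeval_algebraMap_apply]
        conv_lhs => rw [hP1]
        rw [map_mul, h0, mul_zero, map_zero]
      have h2 := hroots (β : ℂ) h1 (by exact_mod_cast hne)
      rw [Complex.norm_real, Real.norm_eq_abs, abs_of_pos (by linarith)] at h2
      linarith
    have h3 : aeval β P1.reverse = 0 := by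
      rw [h0, mul_zero, zero_add] at heq1
      rcases mul_eq_zero.mp heq1 with h | h
      · rcases hε with h' | h' <;> rw [h'] at h <;> norm_num at h
      · exact h
    have hβ0 : β ≠ 0 := by linarith
    have h4 : aeval β⁻¹ P1 = 0 := by
      let _ : Invertible β⁻¹ := invertibleOfNonzero (inv_ne_zero hβ0)
      have h5 := eval₂_reverse_eq_zero_iff (algebraMap ℤ ℝ) β⁻¹ P1
      rw [invOf_eq_inv, inv_inv] at h5
      exact h5.mp h3
    rw [hβθ] at h4
    have h6 := quad_case P1 hP1m θ hθ D hD hDroots hP1c h4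
    have h7 := tau_lt (hβ.trans hlt) hτ'
    have h8 : θ⁻¹ < 1 := inv_lt_one_of_one_lt₀ hθ
    rw [hβθ] at hlt
    linarith
  have hs1 : ((P1.reverse + C ε * X ^ (n + k) * P1 : ℤ[X]) : PowerSeries ℤ) * s =
      ((C ε * X ^ (n + k) * P1 : ℤ[X]) : PowerSeries ℤ) := by
    have h1 : C ε * X ^ (n + k) * P1 = C ε * X ^ n * P := by
      rw [pow_add]
      conv_rhs => rw [hP1]
      ring
    rw [h1, ← hrev]
    exact hs
  obtain ⟨r, p, hr⟩ := exists_pseq P1 hP1m θ hθ D hD hDroots hP1c (n + k) (by omega) ε hε hβ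
    hP1β heq1 s hs1 (by rcases hn with h | h; exacts [Or.inl (by omega), Or.inr h])
  have := hbound β r p hβ hr
  linarith

end Pool.Agent.MP1f45fc.S
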