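import Pool.Agent.Lib.MP_1f45fc_nt.S.PSeq

set_option autoImplicit false

open Polynomial

namespace Pool.Agent.MP1f45fc.S

variable {V : Type*} [AddCommGroup V] [Module ℝ V]

/-- the vector `f(g) x` -/
noncomputable def pv (g : V →ₗ[ℝ] V) (x : V) (f : ℝ[X]) : V := f.sum fun i a => a • (g ^ i) x

lemma iso_pow (B : V →ₗ[ℝ] V →ₗ[ℝ] ℝ) (g : V →ₗ[ℝ] V) (hg : ∀ x y, B (g x) (g y) = B x y)
    (k : ℕ) (x y : V) : B ((g ^ k) x) ((g ^ k) y) = B x y := by
  induction k generalizing x y with
  | zero => simp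
  | succ k ih =>
    rw [pow_succ', Module.End.mul_apply, Module.End.mul_apply, hg, ih]

lemma iso_dist (B : V →ₗ[ℝ] V →ₗ[ℝ] ℝ) (hs : ∀ x y, B x y = B y x)
    (g : V →ₗ[ℝ] V) (hg : ∀ x y, B (g x) (g y) = B x y)
    (i j : ℕ) (x : V) : B ((g ^ i) x) ((g ^ j) x) = B x ((g ^ (Nat.dist i j)) x) := by
  rcases le_total i j with h | h
  · rw [Nat.dist_eq_sub_of_le h]
    obtain ⟨d, rfl⟩ := Nat.exists_eq_add_of_le h
    rw [Nat.add_sub_cancel_left, pow_add, Module.End.mul_apply, iso_pow B g hg]
  · rw [Nat.dist_eq_sub_of_le_right h]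
    obtain ⟨d, rfl⟩ := Nat.exists_eq_add_of_le h
    rw [Nat.add_sub_cancel_left, pow_add, Module.End.mul_apply, hs, iso_pow B g hg]

lemma pv_form (B : V →ₗ[ℝ] V →ₗ[ℝ] ℝ) (hs : ∀ x y, B x y = B y x)
    (g : V →ₗ[ℝ] V) (hg : ∀ x y, B (g x) (g y) = B x y) (x : V) (r : ℕ → ℤ)
    (hr : ∀ k, 2 * B x ((g ^ k) x) = r k * B x x) (f : ℝ[X]) :
    2 * B (pv g x f) (pv g x f) = B x x * tb r f f := by
  unfold pv tb
  simp only [Polynomial.sum_def, map_sum, LinearMap.sum_apply, map_smul, LinearMap.smul_apply,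
    smul_eq_mul, Finset.mul_sum]
  refine Finset.sum_congr rfl fun i _ => Finset.sum_congr rfl fun j _ => ?_
  rw [iso_dist B hs g hg]
  have h := hr (Nat.dist i j)
  rw [Nat.dist_comm j i]
  linear_combination (f.coeff i * f.coeff j) * h

lemma pv_eig (B : V →ₗ[ℝ] V →ₗ[ℝ] ℝ) (g : V →ₗ[ℝ] V) (hg : ∀ x y, B (g x) (g y) = B x y)
    {c : ℝ} (hc : c ≠ 0) {u : V} (hu : g u = c • u) (x : V) (f : ℝ[X]) :
    B (pv g x f) u = f.eval c⁻¹ * B x u := by
  have h1 : ∀ y, B (g y) u = c⁻¹ * B y u := fun y => by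
    have h2 := hg y u
    rw [hu, map_smul, smul_eq_mul] at h2
    rw [← h2, ← mul_assoc, inv_mul_cancel₀ hc, one_mul]
  have h2 : ∀ (k : ℕ), B ((g ^ k) x) u = (c⁻¹) ^ k * B x u := fun k => by
    induction k with
    | zero => simp
    | succ k ih => rw [pow_succ', Module.End.mul_apply, h1, ih, pow_succ]; ring
  unfold pv
  rw [Polynomial.eval_eq_sum, Polynomial.sum_def, Polynomial.sum_def, map_sum,
    LinearMap.sum_apply, Finset.sum_mul]
  refine Finset.sum_congr rfl fun i _ => ?_
  rw [map_smul, LinearMap.smul_apply, smul_eq_mul, h2]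
  ring

/-- A vector whose projection to the plane of the axis is spacelike and whose products with its
own images are integral gives a sequence of the class. -/
theorem pseq_of_geo (B : V →ₗ[ℝ] V →ₗ[ℝ] ℝ) (hs : ∀ x y, B x y = B y x)
    (g : V →ₗ[ℝ] V) (hg : ∀ x y, B (g x) (g y) = B x y)
    {b : ℝ} (hb : 1 < b) {u v : V} (hu : g u = b • u) (hv : g v = b⁻¹ • v)
    (hpos : ∀ x, B x u = 0 → B x v = 0 → 0 ≤ B x x)
    {x : V} (hx : 0 < B x x) (hcross : 0 < B x u * B x v * B u v)
    (hint : ∀ k : ℕ, 1 ≤ k → ∃ m : ℤ, 2 * B x ((g ^ k) x) = m * B x x) :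
    ∃ r p, PSeq b r p := by
  have hb0 : b ≠ 0 := by positivity
  have hint' : ∀ k : ℕ, ∃ m : ℤ, 2 * B x ((g ^ k) x) = m * B x x := fun k => by
    rcases k with _ | k
    · exact ⟨2, by simp⟩
    · exact hint _ (by omega)
  choose r hr using hint'
  have huu : B u u = 0 := by
    have h1 := hg u u
    rw [hu] at h1
    simp only [map_smul, LinearMap.smul_apply, smul_eq_mul] at h1
    have h2 : (b * b - 1) * B u u = 0 := by linear_combination h1
    rcases mul_eq_zero.mp h2 with h | h
    · exfalso; nlinarith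
    · exact h
  have hvv : B v v = 0 := by
    have h1 := hg v v
    rw [hv] at h1
    simp only [map_smul, LinearMap.smul_apply, smul_eq_mul] at h1
    have h3 : b⁻¹ < 1 := inv_lt_one_of_one_lt₀ hb
    have h4 : 0 < b⁻¹ := by positivity
    have h2 : (b⁻¹ * b⁻¹ - 1) * B v v = 0 := by linear_combination h1
    rcases mul_eq_zero.mp h2 with h | h
    · exfalso; nlinarith
    · exact h
  have hc : B u v ≠ 0 := fun h => by rw [h, mul_zero] at hcross; exact lt_irrefl _ hcross
  have hcc : 0 < B x u * B x v / B u v := by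
    have : B x u * B x v / B u v = B x u * B x v * B u v / (B u v) ^ 2 := by
      field_simp
    rw [this]; positivity
  have hlow : ∀ y : V, 2 * (B y u * B y v) / B u v ≤ B y y := fun y => by
    have h1 := hpos (y - (B y v / B u v) • u - (B y u / B u v) • v) ?_ ?_
    · simp only [map_sub, map_smul, LinearMap.sub_apply, LinearMap.smul_apply, smul_eq_mul, huu,
        hvv, hs u y, hs v y, hs v u] at h1
      have e : B y y - B y v / B u v * B y u - B y u / B u v * B y v -
            B y v / B u v * (B y u - B y v / B u v * 0 - B y u / B u v * B u v) -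
            B y u / B u v * (B y v - B y v / B u v * B u v - B y u / B u v * 0)
          = B y y - 2 * (B y u * B y v) / B u v := by
        field_simp
        ring
      linarith [h1, e]
    · simp only [map_sub, map_smul, LinearMap.sub_apply, LinearMap.smul_apply, smul_eq_mul, huu,
        hs v u]
      field_simp
      ring
    · simp only [map_sub, map_smul, LinearMap.sub_apply, LinearMap.smul_apply, smul_eq_mul, hvv]
      field_simp
      ring
  refine ⟨r, 2 * (B x u * B x v / B u v) / B x x, by positivity, ?_, fun f => ?_⟩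
  · have h1 := hr 0
    simp only [pow_zero, Module.End.one_apply] at h1
    have h2 : ((r 0 : ℝ) - 2) * B x x = 0 := by linear_combination -h1
    rcases mul_eq_zero.mp h2 with h | h
    · have : (r 0 : ℝ) = 2 := by linarith
      exact_mod_cast this
    · exact absurd h hx.ne'
  · have h1 := pv_form B hs g hg x r hr f
    have h2 := hlow (pv g x f)
    rw [pv_eig B g hg hb0 hu, pv_eig B g hg (inv_ne_zero hb0) hv, inv_inv] at h2
    have h3 : B x x * (2 * (2 * (B x u * B x v / B u v) / B x x) * (f.eval b * f.eval b⁻¹)) =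
        2 * (2 * (f.eval b⁻¹ * B x u * (f.eval b * B x v)) / B u v) := by
      field_simp
    have h4 : B x x * (2 * (2 * (B x u * B x v / B u v) / B x x) * (f.eval b * f.eval b⁻¹)) ≤
        B x x * tb r f f := by
      rw [h3, ← h1]; linarith
    exact le_of_mul_le_mul_left h4 hx

end Pool.Agent.MP1f45fc.S
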