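import Pool.Agent.Lib.MP_1f45fc_nt.S.Geo

set_option autoImplicit false

open Matrix

namespace Pool.Agent.MP1f45fc.S

lemma form_symm {n : ℕ} {R : Type*} [CommRing R] (Q : Matrix (Fin n) (Fin n) R) (hQ : Qᵀ = Q)
    (x y : Fin n → R) : x ⬝ᵥ Q *ᵥ y = y ⬝ᵥ Q *ᵥ x := by
  rw [dotProduct_mulVec, ← mulVec_transpose, hQ, dotProduct_comm]

lemma form_iso {n : ℕ} {R : Type*} [CommRing R] (Q G : Matrix (Fin n) (Fin n) R)
    (hG : Gᵀ * Q * G = Q) (x y : Fin n → R) :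
    (G *ᵥ x) ⬝ᵥ Q *ᵥ (G *ᵥ y) = x ⬝ᵥ Q *ᵥ y := by
  conv_rhs => rw [← hG]
  rw [← mulVec_mulVec, ← mulVec_mulVec, dotProduct_mulVec x, vecMul_transpose]

/-- Lattice form: `Q` an integral symmetric form, `G` an integral isometry with eigenvectors
`u, v` for `b, 1/b`, the form is nonnegative on the orthogonal complement of `u, v`, and `r` a
root of the lattice whose mirror separates the two ends `u, v` of the axis. -/
theorem lattice_pseq {n : ℕ} (Q G : Matrix (Fin n) (Fin n) ℤ) (hQ : Qᵀ = Q)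
    (hG : Gᵀ * Q * G = Q) {b : ℝ} (hb : 1 < b) {u v : Fin n → ℝ}
    (hu : G.map (Int.cast : ℤ → ℝ) *ᵥ u = b • u) (hv : G.map (Int.cast : ℤ → ℝ) *ᵥ v = b⁻¹ • v)
    (hpos : ∀ x : Fin n → ℝ, x ⬝ᵥ Q.map (Int.cast : ℤ → ℝ) *ᵥ u = 0 →
      x ⬝ᵥ Q.map (Int.cast : ℤ → ℝ) *ᵥ v = 0 → 0 ≤ x ⬝ᵥ Q.map (Int.cast : ℤ → ℝ) *ᵥ x)
    (r : Fin n → ℤ) (hr : 0 < r ⬝ᵥ Q *ᵥ r)
    (hrefl : ∀ y : Fin n → ℤ, r ⬝ᵥ Q *ᵥ r ∣ 2 * (r ⬝ᵥ Q *ᵥ y))
    (hcross : 0 < ((fun i => (r i : ℝ)) ⬝ᵥ Q.map (Int.cast : ℤ → ℝ) *ᵥ u) *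
      ((fun i => (r i : ℝ)) ⬝ᵥ Q.map (Int.cast : ℤ → ℝ) *ᵥ v) *
      (u ⬝ᵥ Q.map (Int.cast : ℤ → ℝ) *ᵥ v)) :
    ∃ r' p, PSeq b r' p := by
  set QR : Matrix (Fin n) (Fin n) ℝ := Q.map (Int.cast : ℤ → ℝ) with hQR
  set GR : Matrix (Fin n) (Fin n) ℝ := G.map (Int.cast : ℤ → ℝ) with hGR
  have hQs : QRᵀ = QR := by
    rw [hQR, ← Matrix.transpose_map, hQ]
  have hGs : GRᵀ * QR * GR = QR := by
    have h1 := congrArg (fun M : Matrix (Fin n) (Fin n) ℤ => M.map (Int.castRingHom ℝ)) hG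
    simp only [Matrix.map_mul] at h1
    exact h1
  have hcast : ∀ x y : Fin n → ℤ, ((x ⬝ᵥ Q *ᵥ y : ℤ) : ℝ) =
      (fun i => (x i : ℝ)) ⬝ᵥ QR *ᵥ (fun i => (y i : ℝ)) := fun x y => by
    simp only [dotProduct, mulVec, hQR, Matrix.map_apply, Int.cast_sum, Int.cast_mul]
  have hGc : ∀ y : Fin n → ℤ, GR *ᵥ (fun i => (y i : ℝ)) = fun i => ((G *ᵥ y) i : ℝ) :=
    fun y => by
    funext i
    simp only [dotProduct, mulVec, hGR, Matrix.map_apply, Int.cast_sum, Int.cast_mul]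
  have hpow : ∀ k : ℕ, ∃ y : Fin n → ℤ, ((Matrix.mulVecLin GR) ^ k) (fun i => (r i : ℝ)) =
      fun i => (y i : ℝ) := fun k => by
    induction k with
    | zero => exact ⟨r, by simp⟩
    | succ k ih =>
      obtain ⟨y, hy⟩ := ih
      refine ⟨G *ᵥ y, ?_⟩
      rw [pow_succ', Module.End.mul_apply, hy, Matrix.mulVecLin_apply, hGc]
  refine pseq_of_geo (Matrix.toLinearMap₂' ℝ QR) (fun x y => ?_) (Matrix.mulVecLin GR)
    (fun x y => ?_) hb (u := u) (v := v) hu hv (fun x h1 h2 => ?_)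
    (x := fun i => (r i : ℝ)) ?_ ?_ (fun k _ => ?_)
  · simp only [Matrix.toLinearMap₂'_apply']
    exact form_symm QR hQs x y
  · simp only [Matrix.toLinearMap₂'_apply', Matrix.mulVecLin_apply]
    exact form_iso QR GR hGs x y
  · simp only [Matrix.toLinearMap₂'_apply'] at h1 h2 ⊢
    exact hpos x h1 h2
  · simp only [Matrix.toLinearMap₂'_apply']
    rw [← hcast]
    exact_mod_cast hr
  · simp only [Matrix.toLinearMap₂'_apply']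
    exact hcross
  · obtain ⟨y, hy⟩ := hpow k
    obtain ⟨m, hm⟩ := hrefl y
    refine ⟨m, ?_⟩
    rw [hy]
    simp only [Matrix.toLinearMap₂'_apply']
    rw [← hcast, ← hcast]
    have : ((2 * (r ⬝ᵥ Q *ᵥ y) : ℤ) : ℝ) = ((r ⬝ᵥ Q *ᵥ r) * m : ℤ) := by rw [hm]
    push_cast at this
    linear_combination this

end Pool.Agent.MP1f45fc.S
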