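import Pool.Agent.Lib.MP_1f45fc_nt.S.Geo

/-!
# The geometric form, with the second case: `x` and `g ^ a x` at an angle of 60 degrees
-/

set_option autoImplicit false

namespace Pool.Agent.MP1f45fc.S

variable {V : Type*} [AddCommGroup V] [Module ℝ V]

lemma eig_pow (g : V →ₗ[ℝ] V) {c : ℝ} {u : V} (hu : g u = c • u) (a : ℕ) :
    (g ^ a) u = c ^ a • u := by
  induction a with
  | zero => simp
  | succ a ih => rw [pow_succ, Module.End.mul_apply, hu, map_smul, ih, smul_smul, pow_succ']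

lemma form_eig (B : V →ₗ[ℝ] V →ₗ[ℝ] ℝ) (g : V →ₗ[ℝ] V) (hg : ∀ x y, B (g x) (g y) = B x y)
    {c : ℝ} (hc : c ≠ 0) {u : V} (hu : g u = c • u) (a : ℕ) (x : V) :
    B ((g ^ a) x) u = (c⁻¹) ^ a * B x u := by
  have h1 := iso_pow B g hg a x u
  rw [eig_pow g hu, map_smul, smul_eq_mul] at h1
  rw [← h1, ← mul_assoc, ← mul_pow, inv_mul_cancel₀ hc, one_pow, one_mul]

theorem pseq_of_mirror (B : V →ₗ[ℝ] V →ₗ[ℝ] ℝ) (hs : ∀ x y, B x y = B y x)
    (g : V →ₗ[ℝ] V) (hg : ∀ x y, B (g x) (g y) = B x y) {b : ℝ} (hb : 1 < b) {u v : V}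
    (hu : g u = b • u) (hv : g v = b⁻¹ • v)
    (hpos : ∀ x, B x u = 0 → B x v = 0 → 0 ≤ B x x) {x : V} (hx : 0 < B x x)
    (hint : ∀ k : ℕ, 1 ≤ k → ∃ m : ℤ, 2 * B x ((g ^ k) x) = m * B x x)
    (hcase : 0 < B x u * B x v * B u v ∨
      (B x u * B x v * B u v < 0 ∧ ∃ a : ℕ, 1 ≤ a ∧ 2 * B x ((g ^ a) x) = B x x)) :
    ∃ r p, PSeq b r p := by
  rcases hcase with h | ⟨hneg, a, ha, hax⟩
  · exact pseq_of_geo B hs g hg hb hu hv hpos hx h hint
  have hb0 : 0 < b := by linarith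
  have hint' : ∀ k : ℕ, ∃ m : ℤ, 2 * B x ((g ^ k) x) = m * B x x := by
    intro k
    rcases Nat.eq_zero_or_pos k with h | h
    · exact ⟨2, by rw [h]; simp⟩
    · exact hint k h
  set y : V := x - (g ^ a) x with hy
  have hgg : B ((g ^ a) x) ((g ^ a) x) = B x x := iso_pow B g hg a x x
  have hyy : B y y = B x x := by
    rw [hy]
    simp only [map_sub, LinearMap.sub_apply]
    rw [hgg, hs ((g ^ a) x) x]
    linarith
  have hyu : B y u = (1 - (b⁻¹) ^ a) * B x u := by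
    rw [hy, map_sub, LinearMap.sub_apply, form_eig B g hg hb0.ne' hu]
    ring
  have hyv : B y v = (1 - b ^ a) * B x v := by
    rw [hy, map_sub, LinearMap.sub_apply, form_eig B g hg (inv_ne_zero hb0.ne') hv, inv_inv]
    ring
  refine pseq_of_geo B hs g hg hb hu hv hpos (x := y) (by rw [hyy]; exact hx) ?_ ?_
  · rw [hyu, hyv]
    have h1 : 1 < b ^ a := one_lt_pow₀ hb (by omega)
    have h2 : (b⁻¹) ^ a < 1 :=
      pow_lt_one₀ (by positivity) (inv_lt_one_of_one_lt₀ hb) (by omega)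
    have e : (1 - (b⁻¹) ^ a) * B x u * ((1 - b ^ a) * B x v) * B u v =
        (1 - (b⁻¹) ^ a) * (b ^ a - 1) * (-(B x u * B x v * B u v)) := by ring
    rw [e]
    exact mul_pos (mul_pos (by linarith) (by linarith)) (by linarith)
  · intro k hk
    obtain ⟨m1, hm1⟩ := hint' k
    obtain ⟨m2, hm2⟩ := hint' (Nat.dist 0 (k + a))
    obtain ⟨m3, hm3⟩ := hint' (Nat.dist a k)
    refine ⟨2 * m1 - m2 - m3, ?_⟩
    have e1 : (g ^ k) y = (g ^ k) x - (g ^ (k + a)) x := by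
      rw [hy, map_sub, pow_add, Module.End.mul_apply]
    have e2 : B ((g ^ a) x) ((g ^ (k + a)) x) = B x ((g ^ k) x) := by
      rw [add_comm k a, pow_add, Module.End.mul_apply, iso_pow B g hg]
    have e3 : B ((g ^ a) x) ((g ^ k) x) = B x ((g ^ (Nat.dist a k)) x) :=
      iso_dist B hs g hg a k x
    have e4 : B x ((g ^ (k + a)) x) = B x ((g ^ (Nat.dist 0 (k + a))) x) := by
      rw [Nat.dist_zero_left]
    rw [hyy, e1, hy]
    simp only [map_sub, LinearMap.sub_apply]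
    rw [e2, e3, e4]
    push_cast
    linear_combination 2 * hm1 - hm2 - hm3

end Pool.Agent.MP1f45fc.S
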