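import Pool.Agent.Lib.MP_1f45fc_nt.T.Core

set_option autoImplicit false

/-!
Every sequence `IsSeq t r p` (moments of a measure on `[-2,2]` and one point `2 cosh t`) is
realised by an isometry with an axis and a vector whose hyperplane crosses it: the interlacing
form of the bound is a special case of the geometric form.
-/

namespace Pool.Agent.MP1f45fc.S

/-- a hyperbolic plane and `m` Euclidean planes -/
abbrev MV (m : ℕ) := (ℝ × ℝ) × (Fin m → ℝ × ℝ)

noncomputable def mB {m : ℕ} (p : ℝ) (w : Fin m → ℝ) : MV m →ₗ[ℝ] MV m →ₗ[ℝ] ℝ :=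
  LinearMap.mk₂ ℝ (fun x y => p * (x.1.1 * y.1.2 + x.1.2 * y.1.1) +
    ∑ i, 2 * w i * ((x.2 i).1 * (y.2 i).1 + (x.2 i).2 * (y.2 i).2))
    (fun x x' y => by
      simp only [Prod.fst_add, Prod.snd_add, Pi.add_apply]
      have : ∑ i, 2 * w i * (((x.2 i).1 + (x'.2 i).1) * (y.2 i).1 +
          ((x.2 i).2 + (x'.2 i).2) * (y.2 i).2) =
          (∑ i, 2 * w i * ((x.2 i).1 * (y.2 i).1 + (x.2 i).2 * (y.2 i).2)) +
          ∑ i, 2 * w i * ((x'.2 i).1 * (y.2 i).1 + (x'.2 i).2 * (y.2 i).2) := by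
        rw [← Finset.sum_add_distrib]
        exact Finset.sum_congr rfl fun i _ => by ring
      rw [this]; ring)
    (fun c x y => by
      simp only [Prod.smul_fst, Prod.smul_snd, Pi.smul_apply, smul_eq_mul]
      have : ∑ i, 2 * w i * (c * (x.2 i).1 * (y.2 i).1 + c * (x.2 i).2 * (y.2 i).2) =
          c * ∑ i, 2 * w i * ((x.2 i).1 * (y.2 i).1 + (x.2 i).2 * (y.2 i).2) := by
        rw [Finset.mul_sum]
        exact Finset.sum_congr rfl fun i _ => by ring
      rw [this]; ring)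
    (fun x y y' => by
      simp only [Prod.fst_add, Prod.snd_add, Pi.add_apply]
      have : ∑ i, 2 * w i * ((x.2 i).1 * ((y.2 i).1 + (y'.2 i).1) +
          (x.2 i).2 * ((y.2 i).2 + (y'.2 i).2)) =
          (∑ i, 2 * w i * ((x.2 i).1 * (y.2 i).1 + (x.2 i).2 * (y.2 i).2)) +
          ∑ i, 2 * w i * ((x.2 i).1 * (y'.2 i).1 + (x.2 i).2 * (y'.2 i).2) := by
        rw [← Finset.sum_add_distrib]
        exact Finset.sum_congr rfl fun i _ => by ring
      rw [this]; ring)
    (fun c x y => by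
      simp only [Prod.smul_fst, Prod.smul_snd, Pi.smul_apply, smul_eq_mul]
      have : ∑ i, 2 * w i * ((x.2 i).1 * (c * (y.2 i).1) + (x.2 i).2 * (c * (y.2 i).2)) =
          c * ∑ i, 2 * w i * ((x.2 i).1 * (y.2 i).1 + (x.2 i).2 * (y.2 i).2) := by
        rw [Finset.mul_sum]
        exact Finset.sum_congr rfl fun i _ => by ring
      rw [this]; ring)

noncomputable def mG {m : ℕ} (t : ℝ) (θ : Fin m → ℝ) : MV m →ₗ[ℝ] MV m where
  toFun x := ((Real.exp t * x.1.1, (Real.exp t)⁻¹ * x.1.2), fun i =>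
    (Real.cos (θ i) * (x.2 i).1 - Real.sin (θ i) * (x.2 i).2,
      Real.sin (θ i) * (x.2 i).1 + Real.cos (θ i) * (x.2 i).2))
  map_add' x y := by
    ext i <;> simp <;> ring
  map_smul' c x := by
    ext i <;> simp <;> ring

lemma mG_pow {m : ℕ} (t : ℝ) (θ : Fin m → ℝ) (k : ℕ) :
    ((mG t θ) ^ k) (((1, 1), fun _ => (1, 0)) : MV m) =
      ((Real.exp (k * t), Real.exp (-(k * t))), fun i =>
        (Real.cos (k * θ i), Real.sin (k * θ i))) := by
  induction k with
  | zero => simp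
  | succ k ih =>
    rw [pow_succ', Module.End.mul_apply, ih]
    have e1 : ((k + 1 : ℕ) : ℝ) * t = t + k * t := by push_cast; ring
    have e2 : ∀ i, ((k + 1 : ℕ) : ℝ) * θ i = θ i + k * θ i := fun i => by push_cast; ring
    simp only [mG, LinearMap.coe_mk, AddHom.coe_mk, e1, e2, neg_add, Real.exp_add, Real.exp_neg,
      Real.cos_add, Real.sin_add]

/-- The interlacing form of the bound is contained in the geometric form. -/
theorem geo_of_isSeq {t : ℝ} {r : ℕ → ℤ} {p : ℝ} (h : T.IsSeq t r p) :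
    ∃ (m : ℕ) (B : MV m →ₗ[ℝ] MV m →ₗ[ℝ] ℝ) (g : MV m →ₗ[ℝ] MV m) (u v x : MV m),
      (∀ y z, B y z = B z y) ∧ (∀ y z, B (g y) (g z) = B y z) ∧
      g u = Real.exp t • u ∧ g v = (Real.exp t)⁻¹ • v ∧
      (∀ y, B y u = 0 → B y v = 0 → 0 ≤ B y y) ∧ 0 < B x x ∧ 0 < B x u * B x v * B u v ∧
      ∀ k : ℕ, 2 * B x ((g ^ k) x) = r k * B x x := by
  obtain ⟨hp, h0, m, w, θ, hw, h⟩ := h
  have hE : Real.exp t ≠ 0 := (Real.exp_pos t).ne'
  have hxx : mB p w (((1, 1), fun _ => (1, 0)) : MV m) ((1, 1), fun _ => (1, 0)) = 2 := by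
    have h1 := h 0
    simp only [Nat.cast_zero, zero_mul, Real.cosh_zero, mul_one, Real.cos_zero, h0] at h1
    simp only [mB, LinearMap.mk₂_apply, mul_one, mul_zero, add_zero, ← Finset.mul_sum]
    push_cast at h1
    linarith
  refine ⟨m, mB p w, mG t θ, ((1, 0), 0), ((0, 1), 0), ((1, 1), fun _ => (1, 0)),
    fun y z => ?_, fun y z => ?_, ?_, ?_, fun y h1 h2 => ?_, ?_, ?_, fun k => ?_⟩
  · simp only [mB, LinearMap.mk₂_apply]
    have : ∑ i, 2 * w i * ((y.2 i).1 * (z.2 i).1 + (y.2 i).2 * (z.2 i).2) =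
        ∑ i, 2 * w i * ((z.2 i).1 * (y.2 i).1 + (z.2 i).2 * (y.2 i).2) :=
      Finset.sum_congr rfl fun i _ => by ring
    rw [this]; ring
  · simp only [mB, mG, LinearMap.mk₂_apply, LinearMap.coe_mk, AddHom.coe_mk]
    have e : ∑ i, 2 * w i * ((Real.cos (θ i) * (y.2 i).1 - Real.sin (θ i) * (y.2 i).2) *
          (Real.cos (θ i) * (z.2 i).1 - Real.sin (θ i) * (z.2 i).2) +
          (Real.sin (θ i) * (y.2 i).1 + Real.cos (θ i) * (y.2 i).2) *
          (Real.sin (θ i) * (z.2 i).1 + Real.cos (θ i) * (z.2 i).2)) =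
        ∑ i, 2 * w i * ((y.2 i).1 * (z.2 i).1 + (y.2 i).2 * (z.2 i).2) := by
      refine Finset.sum_congr rfl fun i _ => ?_
      have h3 := Real.sin_sq_add_cos_sq (θ i)
      linear_combination (2 * w i * ((y.2 i).1 * (z.2 i).1 + (y.2 i).2 * (z.2 i).2)) * h3
    rw [e]
    field_simp
  · simp only [mG, LinearMap.coe_mk, AddHom.coe_mk]
    ext i <;> simp
  · simp only [mG, LinearMap.coe_mk, AddHom.coe_mk]
    ext i <;> simp
  · simp only [mB, LinearMap.mk₂_apply, Pi.zero_apply, Prod.fst_zero, Prod.snd_zero, mul_zero,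
      add_zero, Finset.sum_const_zero, mul_one, zero_add] at h1 h2 ⊢
    have h3 : y.1.2 = 0 := by
      rcases mul_eq_zero.mp h1 with h | h
      · exact absurd h hp.ne'
      · exact h
    rw [h3]
    simp only [mul_zero, zero_mul, add_zero, zero_add]
    exact Finset.sum_nonneg fun i _ => mul_nonneg (mul_nonneg zero_le_two (hw i))
      (add_nonneg (mul_self_nonneg _) (mul_self_nonneg _))
  · rw [hxx]; norm_num
  · simp only [mB, LinearMap.mk₂_apply, Pi.zero_apply, Prod.fst_zero, Prod.snd_zero, mul_zero,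
      add_zero, Finset.sum_const_zero, mul_one, zero_add]
    positivity
  · rw [mG_pow, hxx, h k]
    simp only [mB, LinearMap.mk₂_apply, one_mul, zero_mul, add_zero, Real.cosh_eq]
    have e : ∑ i, 2 * w i * Real.cos (k * θ i) = 2 * ∑ i, w i * Real.cos (k * θ i) := by
      rw [Finset.mul_sum]
      exact Finset.sum_congr rfl fun i _ => by ring
    rw [e]; ring

end Pool.Agent.MP1f45fc.S
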