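import Pool.Agent.Lib.MP_1f45fc_nt.T.Adapt
import Pool.Agent.Lib.MP_1f45fc_nt.S.PSeq

/-!
# The tree data give the bound for positive definite sequences
-/

set_option autoImplicit false

namespace Pool.Agent.MP1f45fc.S

theorem pseq_bound {T' : ℝ} (hT : T.IsT T') {W D KA KB : ℕ} {Dc KC : ℕ → ℕ} {lo hi : ℤ}
    {outsA outsB : List T.Goal} {gB : T.Goal} {rootsc outsc : ℕ → List T.Goal}
    (hD : 1 ≤ D) (hDW : D ≤ W)
    (hlo : lo ≤ 8618253967) (hhi : 8703398820 ≤ hi)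
    (hA : T.Imp 0 KA [⟨[], 0, [], lo, hi⟩] outsA) (hA2 : outsA.all (T.okA W Dc) = true)
    (hC : ∀ e, 1 ≤ e → e ≤ W → e ≤ Dc e ∧ KC e ≤ Dc e + 1 ∧ T.Imp 0 (KC e) (rootsc e) (outsc e) ∧
      T.rootsC e (Dc e) (rootsc e) = true ∧ (outsc e).all (T.okC e) = true)
    (hKB : KB ≤ W + 1) (hB : T.Imp D KB [gB] outsB) (hB1 : T.isZero W D gB = true)
    (hB2 : outsB.all T.okB = true)
    {β : ℝ} {r : ℕ → ℤ} {p : ℝ} (hβ : 1 < β) (hr : PSeq β r p) : T' ≤ Real.log β := by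
  refine reduceP (W := W) (D := D) (Dc := Dc) hD hDW (T.hA_of hT hlo hhi hA hA2) ?_
    (T.hB_of hT hDW hKB hB hB1 hB2) hβ hr
  intro t r hm h1 h2 e he heW K hK hc
  obtain ⟨c1, c2, c3, c4, c5⟩ := hC e he heW
  exact T.hC_of hT he c1 c2 c3 c4 c5 t r hm h1 h2 K hK hc

end Pool.Agent.MP1f45fc.S
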