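import Mathlib
import Pool.Agent.Lib.MP_1f45fc_nt.S.PSeq
import Pool.Agent.Lib.MP_1f45fc_nt.T.Trees

/-!
# The bound for positive definite sequences
-/

set_option autoImplicit false

namespace Pool.Agent.MP1f45fc.S

theorem pseq_main {T' β p : ℝ} {r : ℕ → ℤ} (hT : T.IsT T') (hβ : 1 < β) (hr : PSeq β r p) :
    T' ≤ Real.log β :=
  reduceP (W := 28) (D := 14) (Dc := T.TreeC.Dc) (by omega) (by omega) (T.tree_A hT)
    (T.tree_C hT) (T.tree_B hT) hβ hr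

theorem pseq_root {β p : ℝ} {r : ℕ → ℤ} (hβ : 1 < β) (hr : PSeq β r p) :
    ∀ l : ℝ, 1 < l → l ^ 10 + l ^ 9 - l ^ 7 - l ^ 6 - l ^ 5 - l ^ 4 - l ^ 3 + l + 1 = 0 →
      l ≤ β := by
  intro l hl hroot
  exact (Real.log_le_log_iff (by linarith) (by linarith)).1
    (pseq_main (T.isT_log hl hroot) hβ hr)

end Pool.Agent.MP1f45fc.S
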